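import Mathlib

set_option autoImplicit false

/-!
The Maker-Breaker clique game on `K_N` with a uniformly random Maker.
-/

namespace Pool.Agent.Helper610.RM

open scoped ENNReal

/-! ### The game -/

/-- The board: the edge set of the complete graph on `Fin N`. -/
abbrev board (N : ℕ) : Finset (Sym2 (Fin N)) := (⊤ : SimpleGraph (Fin N)).edgeFinset

/-- The law of the set of elements that Maker owns at the end of the game when Maker plays
randomly and Breaker plays the strategy `σ`. Here `h` is the list of the claimed elements (the
history, last move first), `M` is the set of the elements claimed by Maker so far, `U` is the set of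
the unclaimed elements, it is Maker's turn, and at most `n` more rounds are played. In a round Maker
claims a uniformly random element `e` of `U`, then Breaker, who knows the whole history
`e :: h`, claims `σ (e :: h)`. The game stops when no element is unclaimed (if Maker has claimed the
last element, the value of `σ` has no effect). -/
noncomputable def play {α : Type*} [DecidableEq α] (σ : List α → α) :
    ℕ → List α → Finset α → Finset α → PMF (Finset α)
  | 0, _, M, _ => PMF.pure M
  | n + 1, h, M, U =>
      if hU : U.Nonempty then
        (PMF.uniformOfFinset U hU).bind fun e =>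
          play σ n (σ (e :: h) :: e :: h) (insert e M) ((U.erase e).erase (σ (e :: h)))
      else PMF.pure M

/-- A Breaker strategy is legal if it claims an unclaimed edge whenever there is one. -/
def Legal (N : ℕ) (σ : List (Sym2 (Fin N)) → Sym2 (Fin N)) : Prop :=
  ∀ h : List (Sym2 (Fin N)), (∃ e ∈ board N, e ∉ h) → σ h ∈ board N ∧ σ h ∉ h

/-- The probability that Maker's final graph contains `K_q` when Breaker plays `σ`; the number of
rounds is bounded by the number of edges. -/
noncomputable def cliqueProb (N q : ℕ) (σ : List (Sym2 (Fin N)) → Sym2 (Fin N)) : ℝ≥0∞ :=
  (play σ (board N).card [] ∅ (board N)).toOuterMeasure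
    {M | ¬ (SimpleGraph.fromEdgeSet (M : Set (Sym2 (Fin N)))).CliqueFree q}

/-- `p_N(q)`: the infimum of `cliqueProb` over all legal Breaker strategies. -/
noncomputable def p (N q : ℕ) : ℝ≥0∞ :=
  ⨅ σ : {σ : List (Sym2 (Fin N)) → Sym2 (Fin N) // Legal N σ}, cliqueProb N q σ

end Pool.Agent.Helper610.RM
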