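import Mathlib
import Pool.Agent.Helper610.RM.Defs

set_option autoImplicit false
set_option linter.unusedSectionVars false

namespace Pool.Agent.Helper610.RM

open scoped ENNReal
open Filter Topology

/-! ### Expectations over a PMF -/

section Exp

variable {β γ : Type*}

/-- The expectation of a nonnegative function. -/
noncomputable def EE (p : PMF β) (F : β → ℝ≥0∞) : ℝ≥0∞ := ∑' b, p b * F b

lemma EE_pure (a : β) (F : β → ℝ≥0∞) : EE (PMF.pure a) F = F a := by
  classical
  rw [EE, tsum_eq_single a]
  · simp
  · intro b hb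
    simp [PMF.pure_apply, hb]

lemma EE_bind (p : PMF β) (f : β → PMF γ) (F : γ → ℝ≥0∞) :
    EE (p.bind f) F = ∑' a, p a * EE (f a) F := by
  unfold EE
  simp only [PMF.bind_apply]
  calc ∑' b, (∑' a, p a * f a b) * F b = ∑' b, ∑' a, p a * (f a b * F b) := by
        congr 1; funext b
        rw [← ENNReal.tsum_mul_right]
        congr 1; funext a; ring
    _ = ∑' a, ∑' b, p a * (f a b * F b) := ENNReal.tsum_comm
    _ = _ := by
        congr 1; funext a
        rw [ENNReal.tsum_mul_left]

lemma EE_mono (p : PMF β) (F G : β → ℝ≥0∞) (h : ∀ b, F b ≤ G b) : EE p F ≤ EE p G :=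
  ENNReal.tsum_le_tsum fun b => by gcongr; exact h b

lemma tsum_uniform (U : Finset β) (hU : U.Nonempty) (G : β → ℝ≥0∞) :
    ∑' a, PMF.uniformOfFinset U hU a * G a = (U.card : ℝ≥0∞)⁻¹ * ∑ a ∈ U, G a := by
  classical
  rw [tsum_eq_sum (s := U)]
  · rw [Finset.mul_sum]
    refine Finset.sum_congr rfl fun a ha => ?_
    rw [PMF.uniformOfFinset_apply_of_mem _ ha]
  · intro b hb
    rw [PMF.uniformOfFinset_apply_of_notMem _ hb, zero_mul]

lemma markov (p : PMF β) (F : β → ℝ≥0∞) (S : Set β) (hS : ∀ b ∈ S, b ∈ p.support → 1 ≤ F b) :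
    p.toOuterMeasure S ≤ EE p F := by
  classical
  rw [PMF.toOuterMeasure_apply, EE]
  refine ENNReal.tsum_le_tsum fun b => ?_
  by_cases hb : b ∈ S
  · rw [Set.indicator_of_mem hb]
    by_cases h0 : b ∈ p.support
    · calc p b = p b * 1 := (mul_one _).symm
        _ ≤ p b * F b := by gcongr; exact hS b hb h0
    · have : p b = 0 := by simpa [PMF.mem_support_iff] using h0
      rw [this]; exact zero_le
  · rw [Set.indicator_of_notMem hb]; exact zero_le

end Exp

/-! ### The game with compensator -/

section Game

variable {α : Type*} [DecidableEq α]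

/-- The game together with the compensator `w`: in every round the weight of each unclaimed
element grows by the probability that Maker claims it. -/
noncomputable def playX (σ : List α → α) :
    ℕ → List α → Finset α → Finset α → (α → ℝ) → PMF (Finset α × (α → ℝ))
  | 0, _, M, _, w => PMF.pure (M, w)
  | n + 1, h, M, U, w =>
      if hU : U.Nonempty then
        (PMF.uniformOfFinset U hU).bind fun e =>
          playX σ n (σ (e :: h) :: e :: h) (insert e M) ((U.erase e).erase (σ (e :: h)))
            (fun x => if x ∈ U then w x + 1 / (U.card : ℝ) else w x)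
      else PMF.pure (M, w)

lemma play_mono (σ : List α → α) (n : ℕ) : ∀ (h : List α) (M U : Finset α) (R : Finset α),
    R ∈ (play σ n h M U).support → M ⊆ R := by
  induction n with
  | zero =>
    intro h M U R hR
    rw [play, PMF.support_pure, Set.mem_singleton_iff] at hR
    rw [hR]
  | succ n ih =>
    intro h M U R hR
    by_cases hne : U.Nonempty
    · rw [play, dif_pos hne, PMF.mem_support_bind_iff] at hR
      obtain ⟨e, he, hR⟩ := hR
      exact (Finset.subset_insert e M).trans (ih _ _ _ _ hR)
    · rw [play, dif_neg hne, PMF.support_pure, Set.mem_singleton_iff] at hR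
      rw [hR]

lemma outer_one_of_support {β : Type*} (p : PMF β) (S : Set β) (h : p.support ⊆ S) :
    p.toOuterMeasure S = 1 := by
  rw [PMF.toOuterMeasure_apply_eq_one_iff]
  exact h

lemma outer_bind {β γ : Type*} (p : PMF β) (f : β → PMF γ) (S : Set γ) :
    (p.bind f).toOuterMeasure S = ∑' a, p a * (f a).toOuterMeasure S :=
  PMF.toOuterMeasure_bind_apply p f S

/-- The probability of an increasing event at the end of the game is at least its probability
after the first `R` rounds. -/
lemma transfer (σ : List α → α) (A : Set (Finset α)) (hA : ∀ M M' : Finset α, M ⊆ M' → M ∈ A → M' ∈ A)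
    (m : ℕ) (R : ℕ) : ∀ (h : List α) (M U : Finset α) (w : α → ℝ),
    (playX σ R h M U w).toOuterMeasure {x | x.1 ∈ A} ≤ (play σ (R + m) h M U).toOuterMeasure A := by
  induction R with
  | zero =>
    intro h M U w
    rw [playX, PMF.toOuterMeasure_pure_apply]
    split_ifs with hM
    · rw [outer_one_of_support]
      intro M' hM'
      exact hA M M' (play_mono σ _ _ _ _ _ hM') hM
    · exact zero_le
  | succ R ih =>
    intro h M U w
    have e1 : R + 1 + m = (R + m) + 1 := by omega
    rw [e1]
    by_cases hne : U.Nonempty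
    · rw [playX, dif_pos hne, play, dif_pos hne, outer_bind, outer_bind]
      refine ENNReal.tsum_le_tsum fun e => ?_
      gcongr
      exact ih _ _ _ _
    · rw [playX, dif_neg hne, play, dif_neg hne, PMF.toOuterMeasure_pure_apply,
        PMF.toOuterMeasure_pure_apply]
      exact le_rfl

/-- The exponential supermartingale. -/
lemma mgf (σ : List α → α) (c : α → ℝ) (θ : ℝ) (Bd : Finset α) (n : ℕ) :
    ∀ (h : List α) (M U : Finset α) (w : α → ℝ), U ⊆ Bd → Disjoint M U →
    EE (playX σ n h M U w) (fun x => ENNReal.ofReal (Real.exp (-θ * ∑ e ∈ x.1, c e +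
      ∑ e ∈ Bd, (1 - Real.exp (-θ * c e)) * x.2 e))) ≤
    ENNReal.ofReal (Real.exp (-θ * ∑ e ∈ M, c e + ∑ e ∈ Bd, (1 - Real.exp (-θ * c e)) * w e)) := by
  induction n with
  | zero =>
    intro h M U w _ _
    rw [playX, EE_pure]
  | succ n ih =>
    intro h M U w hUB hMU
    by_cases hne : U.Nonempty
    swap
    · rw [playX, dif_neg hne, EE_pure]
    rw [playX, dif_pos hne, EE_bind, tsum_uniform]
    set w' : α → ℝ := fun x => if x ∈ U then w x + 1 / (U.card : ℝ) else w x with hw'
    have hcard : (0 : ℝ) < U.card := by exact_mod_cast Finset.card_pos.2 hne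
    set a : ℝ := (1 / (U.card : ℝ)) * ∑ e ∈ U, (1 - Real.exp (-θ * c e)) with ha
    have hsum : ∑ e ∈ Bd, (1 - Real.exp (-θ * c e)) * w' e =
        ∑ e ∈ Bd, (1 - Real.exp (-θ * c e)) * w e + a := by
      have h1 : ∀ e ∈ Bd, (1 - Real.exp (-θ * c e)) * w' e = (1 - Real.exp (-θ * c e)) * w e +
          (if e ∈ U then (1 / (U.card : ℝ)) * (1 - Real.exp (-θ * c e)) else 0) := by
        intro e _
        simp only [hw']
        split_ifs <;> ring
      rw [Finset.sum_congr rfl h1, Finset.sum_add_distrib, ha, ← Finset.sum_filter,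
        Finset.filter_mem_eq_inter, Finset.inter_eq_right.2 hUB, Finset.mul_sum]
    set base : ℝ := -θ * ∑ e ∈ M, c e + ∑ e ∈ Bd, (1 - Real.exp (-θ * c e)) * w e with hbase
    have hstep : ∀ e ∈ U, EE (playX σ n (σ (e :: h) :: e :: h) (insert e M)
        ((U.erase e).erase (σ (e :: h))) w') (fun x => ENNReal.ofReal (Real.exp (-θ * ∑ e ∈ x.1, c e +
      ∑ e ∈ Bd, (1 - Real.exp (-θ * c e)) * x.2 e))) ≤
        ENNReal.ofReal (Real.exp (base + a) * Real.exp (-θ * c e)) := by
      intro e he
      refine le_trans (ih _ _ _ _ ?_ ?_) (le_of_eq ?_)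
      · exact ((Finset.erase_subset _ _).trans (Finset.erase_subset _ _)).trans hUB
      · rw [Finset.disjoint_insert_left]
        refine ⟨fun hh => (Finset.mem_erase.1 (Finset.mem_of_mem_erase hh)).1 rfl, ?_⟩
        exact hMU.mono_right ((Finset.erase_subset _ _).trans (Finset.erase_subset _ _))
      · have heM : e ∉ M := fun hh => (Finset.disjoint_left.1 hMU hh) he
        rw [Finset.sum_insert heM, hsum, ← Real.exp_add]
        congr 2
        rw [hbase]; ring
    calc (U.card : ℝ≥0∞)⁻¹ * ∑ e ∈ U, _ ≤ (U.card : ℝ≥0∞)⁻¹ * ∑ e ∈ U,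
          ENNReal.ofReal (Real.exp (base + a) * Real.exp (-θ * c e)) := by
          gcongr with e he
          exact hstep e he
      _ = ENNReal.ofReal ((1 / (U.card : ℝ)) * ∑ e ∈ U, Real.exp (base + a) * Real.exp (-θ * c e)) := by
          rw [ENNReal.ofReal_mul (by positivity), ENNReal.ofReal_sum_of_nonneg
            (fun e _ => by positivity)]
          congr 1
          rw [one_div, ENNReal.ofReal_inv_of_pos hcard, ENNReal.ofReal_natCast]
      _ ≤ ENNReal.ofReal (Real.exp base) := by
          apply ENNReal.ofReal_le_ofReal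
          rw [← Finset.mul_sum, ← mul_assoc, mul_comm (1 / (U.card : ℝ)), mul_assoc]
          have h1 : (1 / (U.card : ℝ)) * ∑ e ∈ U, Real.exp (-θ * c e) = 1 - a := by
            rw [ha, Finset.sum_sub_distrib, Finset.sum_const, nsmul_eq_mul, mul_one, mul_sub,
              one_div, inv_mul_cancel₀ hcard.ne']
            ring
          rw [h1, Real.exp_add, mul_assoc]
          have h2 : Real.exp a * (1 - a) ≤ 1 := by
            have h3 : 1 - a ≤ Real.exp (-a) := by
              have := Real.add_one_le_exp (-a)
              linarith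
            calc Real.exp a * (1 - a) ≤ Real.exp a * Real.exp (-a) := by gcongr
              _ = 1 := by rw [← Real.exp_add]; simp
          calc Real.exp base * (Real.exp a * (1 - a)) ≤ Real.exp base * 1 := by gcongr
            _ = _ := mul_one _

end Game

end Pool.Agent.Helper610.RM
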