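import Mathlib
import Pool.Agent.Helper610.RM.Ext

set_option autoImplicit false
set_option linter.unusedSectionVars false

namespace Pool.Agent.Helper610.RM

open scoped ENNReal
open Filter Topology

section Inv

variable {α : Type*} [DecidableEq α]

/-- Invariants after `s` rounds. -/
structure Inv (Bd : Finset α) (s : ℕ) (h : List α) (M U : Finset α) (w : α → ℝ) : Prop where
  mem : ∀ x, x ∈ U ↔ x ∈ Bd ∧ x ∉ h
  card : U.card + 2 * s = Bd.card
  sub : M ⊆ Bd
  disj : Disjoint M U
  low : ∀ e ∈ U, (s : ℝ) / Bd.card ≤ w e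
  high : ∀ e ∈ U, w e ≤ s * (3 / Bd.card)
  pos : ∀ e ∈ Bd, e ∉ U → 0 < w e ∧ w e ≤ 1
  sum : ∑ e ∈ Bd \ U, -Real.log (w e) ≤ 2 * ∑ i ∈ Finset.range s, Real.log (Bd.card / (i + 1))

lemma inv_step (Bd : Finset α) (R : ℕ) (hR : 3 * R ≤ Bd.card) (σ : List α → α)
    (hσ : ∀ h : List α, (∃ e ∈ Bd, e ∉ h) → σ h ∈ Bd ∧ σ h ∉ h)
    (s : ℕ) (hs : s < R) (h : List α) (M U : Finset α) (w : α → ℝ) (hI : Inv Bd s h M U w)
    (e : α) (he : e ∈ U) :
    Inv Bd (s + 1) (σ (e :: h) :: e :: h) (insert e M) ((U.erase e).erase (σ (e :: h)))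
      (fun x => if x ∈ U then w x + 1 / (U.card : ℝ) else w x) := by
  have hUB : U ⊆ Bd := fun x hx => ((hI.mem x).1 hx).1
  have hUc : U.card = Bd.card - 2 * s := by have := hI.card; omega
  have hB0 : 0 < Bd.card := by omega
  have hBr : (0 : ℝ) < Bd.card := by exact_mod_cast hB0
  have hU0 : 0 < U.card := by omega
  have hUr : (0 : ℝ) < U.card := by exact_mod_cast hU0
  have hc1 : (U.erase e).card = U.card - 1 := Finset.card_erase_of_mem he
  have hne : (U.erase e).Nonempty := by rw [← Finset.card_pos]; omega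
  have hleg := hσ (e :: h) (by
    obtain ⟨y, hy⟩ := hne
    have h1 := Finset.mem_erase.1 hy
    have h2 := (hI.mem y).1 h1.2
    exact ⟨y, h2.1, by simp [h1.1, h2.2]⟩)
  set f := σ (e :: h) with hf
  have hfe : f ≠ e := by
    intro hh; apply hleg.2; rw [hh]; simp
  have hfU : f ∈ U := (hI.mem f).2 ⟨hleg.1, fun hh => hleg.2 (List.mem_cons_of_mem _ hh)⟩
  have hfU' : f ∈ U.erase e := Finset.mem_erase.2 ⟨hfe, hfU⟩
  have hlow1 : 1 / (Bd.card : ℝ) ≤ 1 / (U.card : ℝ) := by
    apply one_div_le_one_div_of_le hUr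
    exact_mod_cast Finset.card_le_card hUB
  have hhigh1 : 1 / (U.card : ℝ) ≤ 3 / Bd.card := by
    rw [div_le_div_iff₀ hUr hBr]
    have : Bd.card ≤ 3 * U.card := by omega
    have : (Bd.card : ℝ) ≤ 3 * U.card := by exact_mod_cast this
    linarith
  have hl : ∀ x ∈ U, ((s + 1 : ℕ) : ℝ) / Bd.card ≤ w x + 1 / (U.card : ℝ) := by
    intro x hx
    have := hI.low x hx
    push_cast
    rw [add_div]
    linarith
  have hh : ∀ x ∈ U, w x + 1 / (U.card : ℝ) ≤ ((s + 1 : ℕ) : ℝ) * (3 / Bd.card) := by
    intro x hx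
    have := hI.high x hx
    push_cast
    linarith
  have hle1 : ((s + 1 : ℕ) : ℝ) * (3 / Bd.card) ≤ 1 := by
    rw [← mul_div_assoc, div_le_one hBr]
    have : (s + 1) * 3 ≤ Bd.card := by omega
    exact_mod_cast this
  have hposl : (0 : ℝ) < ((s + 1 : ℕ) : ℝ) / Bd.card := by positivity
  refine ⟨?_, ?_, ?_, ?_, ?_, ?_, ?_, ?_⟩
  · intro x
    simp only [Finset.mem_erase, hI.mem, List.mem_cons, not_or]
    tauto
  · rw [Finset.card_erase_of_mem hfU', hc1]
    have := hI.card
    omega
  · intro x hx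
    rcases Finset.mem_insert.1 hx with rfl | hx
    · exact hUB he
    · exact hI.sub hx
  · rw [Finset.disjoint_insert_left]
    refine ⟨fun hh => (Finset.mem_erase.1 (Finset.mem_of_mem_erase hh)).1 rfl, ?_⟩
    exact hI.disj.mono_right ((Finset.erase_subset _ _).trans (Finset.erase_subset _ _))
  · intro x hx
    have hxU : x ∈ U := Finset.mem_of_mem_erase (Finset.mem_of_mem_erase hx)
    rw [if_pos hxU]
    exact hl x hxU
  · intro x hx
    have hxU : x ∈ U := Finset.mem_of_mem_erase (Finset.mem_of_mem_erase hx)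
    rw [if_pos hxU]
    exact hh x hxU
  · intro x hxB hx
    by_cases hxU : x ∈ U
    · rw [if_pos hxU]
      exact ⟨lt_of_lt_of_le hposl (hl x hxU), (hh x hxU).trans hle1⟩
    · rw [if_neg hxU]
      exact hI.pos x hxB hxU
  · have hset : Bd \ (U.erase e).erase f = insert e (insert f (Bd \ U)) := by
      ext x
      simp only [Finset.mem_sdiff, Finset.mem_erase, Finset.mem_insert, not_and, not_not]
      constructor
      · rintro ⟨h1, h2⟩
        by_cases hxe : x = e
        · exact Or.inl hxe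
        by_cases hxf : x = f
        · exact Or.inr (Or.inl hxf)
        exact Or.inr (Or.inr ⟨h1, fun hxU => h2 hxf hxe hxU⟩)
      · rintro (rfl | rfl | ⟨h1, h2⟩)
        · exact ⟨hUB he, fun _ h => absurd rfl h⟩
        · exact ⟨hUB hfU, fun h => absurd rfl h⟩
        · exact ⟨h1, fun _ _ h => h2 h⟩
    have he1 : e ∉ insert f (Bd \ U) := by
      simp only [Finset.mem_insert, Finset.mem_sdiff, not_or, not_and, not_not]
      exact ⟨fun h => hfe h.symm, fun _ => he⟩
    have hf1 : f ∉ Bd \ U := by simp [hfU]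
    rw [hset, Finset.sum_insert he1, Finset.sum_insert hf1, if_pos he, if_pos hfU,
      Finset.sum_range_succ]
    have hold : ∑ x ∈ Bd \ U, -Real.log (if x ∈ U then w x + 1 / (U.card : ℝ) else w x) =
        ∑ x ∈ Bd \ U, -Real.log (w x) := by
      refine Finset.sum_congr rfl fun x hx => ?_
      rw [if_neg (Finset.mem_sdiff.1 hx).2]
    rw [hold]
    have hlog : ∀ x ∈ U, -Real.log (w x + 1 / (U.card : ℝ)) ≤ Real.log (Bd.card / (s + 1)) := by
      intro x hx
      have h1 := Real.log_le_log hposl (hl x hx)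
      have h2 : Real.log (Bd.card / (s + 1)) = -Real.log (((s + 1 : ℕ) : ℝ) / Bd.card) := by
        rw [← Real.log_inv, inv_div]
        push_cast
        rfl
      rw [h2]
      linarith
    have h1 := hlog e he
    have h2 := hlog f hfU
    have h3 := hI.sum
    linarith

lemma inv_final (Bd : Finset α) (R : ℕ) (hR : 3 * R ≤ Bd.card) (σ : List α → α)
    (hσ : ∀ h : List α, (∃ e ∈ Bd, e ∉ h) → σ h ∈ Bd ∧ σ h ∉ h) (n : ℕ) :
    ∀ (s : ℕ) (h : List α) (M U : Finset α) (w : α → ℝ), s + n = R → Inv Bd s h M U w →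
    ∀ x ∈ (playX σ n h M U w).support, ∃ h' U', Inv Bd R h' x.1 U' x.2 := by
  induction n with
  | zero =>
    intro s h M U w hs hI x hx
    rw [playX, PMF.support_pure, Set.mem_singleton_iff] at hx
    subst hx
    have : s = R := by omega
    subst this
    exact ⟨h, U, hI⟩
  | succ n ih =>
    intro s h M U w hs hI x hx
    have hne : U.Nonempty := by
      rw [← Finset.card_pos]
      have := hI.card
      omega
    rw [playX, dif_pos hne, PMF.mem_support_bind_iff] at hx
    obtain ⟨e, he, hx⟩ := hx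
    rw [PMF.mem_support_uniformOfFinset_iff] at he
    exact ih (s + 1) _ _ _ _ (by omega) (inv_step Bd R hR σ hσ s (by omega) h M U w hI e he) x hx

lemma inv_init (Bd : Finset α) : Inv Bd 0 [] ∅ Bd (fun _ => 0) := by
  refine ⟨by simp, by simp, by simp, by simp, by simp, by simp, ?_, by simp⟩
  intro e he he'
  exact absurd he he'

lemma sum_log_le (B : ℝ) (hB : 0 < B) (R : ℕ) (hR : 0 < R) :
    ∑ i ∈ Finset.range R, Real.log (B / (i + 1)) ≤ R * Real.log (B / R) + R := by
  have h1 : ∀ i ∈ Finset.range R, Real.log (B / (i + 1)) = Real.log B - Real.log ((i : ℝ) + 1) := by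
    intro i _
    rw [Real.log_div hB.ne' (by positivity)]
  rw [Finset.sum_congr rfl h1, Finset.sum_sub_distrib, Finset.sum_const, Finset.card_range,
    nsmul_eq_mul]
  have h2 : ∑ i ∈ Finset.range R, Real.log ((i : ℝ) + 1) = Real.log (R.factorial) := by
    clear h1 hR
    induction R with
    | zero => simp
    | succ n ih =>
      rw [Finset.sum_range_succ, ih, Nat.factorial_succ]
      push_cast
      rw [mul_comm, Real.log_mul (by positivity) (by positivity)]
  have hR' : (0 : ℝ) < R := by exact_mod_cast hR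
  have h3 : (R : ℝ) ^ R / R.factorial ≤ Real.exp R := Real.pow_div_factorial_le_exp _ hR'.le R
  have h4 : R * Real.log R - Real.log R.factorial ≤ R := by
    have hpos : (0 : ℝ) < (R : ℝ) ^ R / R.factorial := by positivity
    have := Real.log_le_log hpos h3
    rw [Real.log_exp, Real.log_div (by positivity) (by positivity), Real.log_pow] at this
    exact this
  rw [h2, Real.log_div hB.ne' hR'.ne']
  linarith

lemma inv_sum (Bd : Finset α) (R : ℕ) (hR0 : 0 < R) (hR : 3 * R ≤ Bd.card) (h : List α)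
    (M U : Finset α) (w : α → ℝ) (hI : Inv Bd R h M U w) :
    (∀ e ∈ Bd, 0 < w e ∧ w e ≤ 1) ∧
    ∑ e ∈ Bd, -Real.log (w e) ≤ Bd.card * Real.log (Bd.card / R) + 2 * R := by
  have hUB : U ⊆ Bd := fun x hx => ((hI.mem x).1 hx).1
  have hBr : (0 : ℝ) < Bd.card := by
    have : 0 < Bd.card := by omega
    exact_mod_cast this
  have hRr : (0 : ℝ) < R := by exact_mod_cast hR0
  constructor
  · intro e he
    by_cases heU : e ∈ U
    · refine ⟨lt_of_lt_of_le (by positivity) (hI.low e heU), (hI.high e heU).trans ?_⟩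
      rw [← mul_div_assoc, div_le_one hBr]
      have : R * 3 ≤ Bd.card := by omega
      exact_mod_cast this
    · exact hI.pos e he heU
  · rw [← Finset.sum_sdiff hUB]
    have h1 := hI.sum
    have h2 := sum_log_le (Bd.card : ℝ) hBr R hR0
    have h3 : ∑ e ∈ U, -Real.log (w e) ≤ U.card * Real.log (Bd.card / R) := by
      rw [← nsmul_eq_mul]
      apply Finset.sum_le_card_nsmul
      intro e he
      have h4 : Real.log (Bd.card / R) = -Real.log ((R : ℝ) / Bd.card) := by
        rw [← Real.log_inv, inv_div]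
      rw [h4]
      have := Real.log_le_log (by positivity) (hI.low e he)
      linarith
    have h5 : (U.card : ℝ) = Bd.card - 2 * R := by
      have := hI.card
      have : (U.card : ℝ) + 2 * R = Bd.card := by exact_mod_cast this
      linarith
    rw [h5] at h3
    linarith

end Inv

end Pool.Agent.Helper610.RM
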