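import Mathlib
import Pool.Agent.Helper610.RM.Inv

set_option autoImplicit false
set_option linter.unusedSectionVars false

namespace Pool.Agent.Helper610.RM

open scoped ENNReal
open Filter Topology

section Disc

variable {N : ℕ}

/-- compensator of the ordered pair -/
noncomputable def wt (w : Sym2 (Fin N) → ℝ) (v x : Fin N) : ℝ := if v = x then 0 else w s(v, x)

/-- indicator of a Maker edge -/
noncomputable def mk (M : Finset (Sym2 (Fin N))) (v x : Fin N) : ℝ := if s(v, x) ∈ M then 1 else 0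

/-- Maker's graph is close to the compensator on all large boxes. -/
def Disc (θ Λ : ℝ) (K : ℕ) (M : Finset (Sym2 (Fin N))) (w : Sym2 (Fin N) → ℝ) : Prop :=
  ∀ Z F : Finset (Fin N), Z.card = K →
    -Λ < ∑ z ∈ Z, ∑ x ∈ F, (mk M z x - (1 - θ) * wt w z x)

/-- multiplicity of an edge in a box -/
noncomputable def mu (Z F : Finset (Fin N)) (e : Sym2 (Fin N)) : ℝ :=
  ∑ z ∈ Z, ∑ x ∈ F, if z ≠ x ∧ s(z, x) = e then 1 else 0

lemma mu_nonneg (Z F : Finset (Fin N)) (e : Sym2 (Fin N)) : 0 ≤ mu Z F e :=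
  Finset.sum_nonneg fun _ _ => Finset.sum_nonneg fun _ _ => by split_ifs <;> norm_num

lemma mu_le (Z F : Finset (Fin N)) (e : Sym2 (Fin N)) : mu Z F e ≤ 2 := by
  classical
  induction e with
  | _ a b =>
    have h1 : mu Z F s(a, b) ≤ ∑ z : Fin N, ∑ x : Fin N,
        ((if z = a ∧ x = b then (1 : ℝ) else 0) + (if z = b ∧ x = a then (1 : ℝ) else 0)) := by
      unfold mu
      refine le_trans (Finset.sum_le_sum_of_subset_of_nonneg (Finset.subset_univ Z)
        (fun _ _ _ => Finset.sum_nonneg fun _ _ => by split_ifs <;> norm_num)) ?_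
      refine Finset.sum_le_sum fun z _ => ?_
      refine le_trans (Finset.sum_le_sum_of_subset_of_nonneg (Finset.subset_univ F)
        (fun _ _ _ => by split_ifs <;> norm_num)) ?_
      refine Finset.sum_le_sum fun x _ => ?_
      by_cases h : z ≠ x ∧ s(z, x) = s(a, b)
      · rw [if_pos h]
        rcases Sym2.eq_iff.1 h.2 with h2 | h2
        · rw [if_pos h2]
          split_ifs <;> norm_num
        · rw [if_pos h2]
          split_ifs <;> norm_num
      · rw [if_neg h]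
        split_ifs <;> norm_num
    refine le_trans h1 (le_of_eq ?_)
    have h2 : ∀ (a b : Fin N), ∑ z : Fin N, ∑ x : Fin N, (if z = a ∧ x = b then (1 : ℝ) else 0) = 1 := by
      intro a b
      have : ∀ z : Fin N, ∑ x : Fin N, (if z = a ∧ x = b then (1 : ℝ) else 0) = if z = a then 1 else 0 := by
        intro z
        by_cases hz : z = a
        · simp [hz]
        · simp [hz]
      simp [this]
    simp only [Finset.sum_add_distrib, h2]
    norm_num

lemma sum_mu_mul (Z F : Finset (Fin N)) (g : Sym2 (Fin N) → ℝ) :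
    ∑ e ∈ board N, mu Z F e * g e = ∑ z ∈ Z, ∑ x ∈ F, wt g z x := by
  classical
  unfold mu
  simp only [Finset.sum_mul]
  rw [Finset.sum_comm]
  refine Finset.sum_congr rfl fun z _ => ?_
  rw [Finset.sum_comm]
  refine Finset.sum_congr rfl fun x _ => ?_
  unfold wt
  by_cases h : z = x
  · simp [h]
  · rw [if_neg h, Finset.sum_eq_single s(z, x)]
    · simp [h]
    · intro b _ hb
      rw [if_neg (by rintro ⟨_, h2⟩; exact hb h2.symm)]
      ring
    · intro hb
      exact absurd (by simp [board, h]) hb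

lemma sum_mu_M (Z F : Finset (Fin N)) (M : Finset (Sym2 (Fin N))) (hM : M ⊆ board N) :
    ∑ e ∈ M, mu Z F e = ∑ z ∈ Z, ∑ x ∈ F, mk M z x := by
  classical
  have h1 := sum_mu_mul Z F (fun e => if e ∈ M then (1 : ℝ) else 0)
  have h2 : ∑ e ∈ board N, mu Z F e * (if e ∈ M then (1 : ℝ) else 0) = ∑ e ∈ M, mu Z F e := by
    rw [← Finset.sum_subset hM]
    · exact Finset.sum_congr rfl fun e he => by rw [if_pos he, mul_one]
    · intro x _ hx
      rw [if_neg hx, mul_zero]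
  rw [← h2, h1]
  refine Finset.sum_congr rfl fun z _ => Finset.sum_congr rfl fun x _ => ?_
  unfold wt mk
  by_cases h : z = x
  · rw [if_pos h, if_neg]
    intro hh
    have := hM hh
    simp [board, h] at this
  · rw [if_neg h]

lemma exp_ineq (θ c : ℝ) (hθ : 0 ≤ θ) (hc : 0 ≤ c) (hc2 : c ≤ 2) :
    (θ - 2 * θ ^ 2) * c ≤ 1 - Real.exp (-θ * c) := by
  set y := θ * c with hy
  have hy0 : 0 ≤ y := mul_nonneg hθ hc
  have h1 : Real.exp (-θ * c) ≤ 1 / (1 + y) := by
    have : -θ * c = -y := by rw [hy]; ring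
    rw [this, Real.exp_neg, ← one_div]
    apply one_div_le_one_div_of_le (by linarith)
    have := Real.add_one_le_exp y
    linarith
  have h2 : y - y ^ 2 ≤ 1 - 1 / (1 + y) := by
    have : 1 - 1 / (1 + y) - (y - y ^ 2) = y ^ 3 / (1 + y) := by
      field_simp
      ring
    have h3 : 0 ≤ y ^ 3 / (1 + y) := by positivity
    linarith
  have h3 : y ^ 2 ≤ 2 * θ ^ 2 * c := by
    rw [hy]
    nlinarith [mul_nonneg (sq_nonneg θ) (mul_nonneg hc (sub_nonneg.2 hc2))]
  have h4 : (θ - 2 * θ ^ 2) * c = y - 2 * θ ^ 2 * c := by rw [hy]; ring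
  rw [h4]
  linarith

lemma wt_le_one (w : Sym2 (Fin N) → ℝ) (hw : ∀ e ∈ board N, 0 < w e ∧ w e ≤ 1) (v x : Fin N) :
    0 ≤ wt w v x ∧ wt w v x ≤ 1 := by
  unfold wt
  split_ifs with h
  · norm_num
  · have := hw s(v, x) (by simp [board, h])
    exact ⟨this.1.le, this.2⟩

/-- one box -/
lemma box_prob (σ : List (Sym2 (Fin N)) → Sym2 (Fin N)) (R : ℕ) (θ Λ : ℝ) (hθ : 0 ≤ θ)
    (hinv : ∀ x ∈ (playX σ R [] ∅ (board N) (fun _ => 0)).support,
      x.1 ⊆ board N ∧ ∀ e ∈ board N, 0 < x.2 e ∧ x.2 e ≤ 1)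
    (Z F : Finset (Fin N)) :
    (playX σ R [] ∅ (board N) (fun _ => 0)).toOuterMeasure
      {x | ∑ z ∈ Z, ∑ y ∈ F, (mk x.1 z y - (1 - θ) * wt x.2 z y) ≤ -Λ} ≤
      ENNReal.ofReal (Real.exp (-(θ * Λ / 2))) := by
  classical
  set τ : ℝ := θ / 2 with hτ
  have hτ0 : 0 ≤ τ := by positivity
  have hm := mgf σ (mu Z F) τ (board N) R [] ∅ (board N) (fun _ => 0) (Finset.Subset.refl _)
    (Finset.disjoint_empty_left _)
  simp only [Finset.sum_empty, mul_zero, Finset.sum_const_zero, add_zero, Real.exp_zero,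
    ENNReal.ofReal_one] at hm
  set t : ℝ := θ * Λ / 2 with ht
  have hmar := markov (playX σ R [] ∅ (board N) (fun _ => 0))
    (fun x => ENNReal.ofReal (Real.exp (-t)) * ENNReal.ofReal (Real.exp (-τ * ∑ e ∈ x.1, mu Z F e +
      ∑ e ∈ board N, (1 - Real.exp (-τ * mu Z F e)) * x.2 e)))
    {x | ∑ z ∈ Z, ∑ y ∈ F, (mk x.1 z y - (1 - θ) * wt x.2 z y) ≤ -Λ} (by
      intro x hx hxs
      obtain ⟨hM, hw⟩ := hinv x hxs
      rw [← ENNReal.ofReal_mul (Real.exp_pos _).le, ← Real.exp_add]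
      rw [show (1 : ℝ≥0∞) = ENNReal.ofReal 1 by simp]
      apply ENNReal.ofReal_le_ofReal
      apply Real.one_le_exp
      rw [sum_mu_M Z F x.1 hM]
      have h1 : (τ - 2 * τ ^ 2) * ∑ z ∈ Z, ∑ y ∈ F, wt x.2 z y ≤
          ∑ e ∈ board N, (1 - Real.exp (-τ * mu Z F e)) * x.2 e := by
        rw [← sum_mu_mul, Finset.mul_sum]
        refine Finset.sum_le_sum fun e he => ?_
        rw [← mul_assoc]
        exact mul_le_mul_of_nonneg_right (exp_ineq τ _ hτ0 (mu_nonneg _ _ _) (mu_le _ _ _))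
          (hw e he).1.le
      have h3 : ∑ z ∈ Z, ∑ y ∈ F, mk x.1 z y - (1 - θ) * ∑ z ∈ Z, ∑ y ∈ F, wt x.2 z y ≤ -Λ := by
        have h4 : ∑ z ∈ Z, ∑ y ∈ F, (mk x.1 z y - (1 - θ) * wt x.2 z y) ≤ -Λ := hx
        simpa only [Finset.sum_sub_distrib, ← Finset.mul_sum] using h4
      set A := ∑ z ∈ Z, ∑ y ∈ F, mk x.1 z y
      set W := ∑ z ∈ Z, ∑ y ∈ F, wt x.2 z y
      have h5 : τ * (A - (1 - θ) * W) ≤ τ * (-Λ) := mul_le_mul_of_nonneg_left h3 hτ0
      have h6 : (τ - 2 * τ ^ 2) = τ * (1 - θ) := by rw [hτ]; ring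
      rw [h6] at h1
      have h7 : τ * Λ = t := by rw [hτ, ht]; ring
      nlinarith)
  refine hmar.trans ?_
  calc EE (playX σ R [] ∅ (board N) (fun _ => 0)) (fun x => ENNReal.ofReal (Real.exp (-t)) *
        ENNReal.ofReal (Real.exp (-τ * ∑ e ∈ x.1, mu Z F e +
      ∑ e ∈ board N, (1 - Real.exp (-τ * mu Z F e)) * x.2 e)))
      = ENNReal.ofReal (Real.exp (-t)) * EE (playX σ R [] ∅ (board N) (fun _ => 0)) (fun x =>
        ENNReal.ofReal (Real.exp (-τ * ∑ e ∈ x.1, mu Z F e +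
      ∑ e ∈ board N, (1 - Real.exp (-τ * mu Z F e)) * x.2 e))) := by
        unfold EE
        rw [← ENNReal.tsum_mul_left]
        congr 1
        funext x
        ring
    _ ≤ ENNReal.ofReal (Real.exp (-t)) * 1 := by gcongr
    _ = _ := by rw [mul_one]

/-- all boxes -/
lemma disc_prob (σ : List (Sym2 (Fin N)) → Sym2 (Fin N)) (R : ℕ) (θ Λ : ℝ) (hθ : 0 ≤ θ) (K : ℕ)
    (hinv : ∀ x ∈ (playX σ R [] ∅ (board N) (fun _ => 0)).support,
      x.1 ⊆ board N ∧ ∀ e ∈ board N, 0 < x.2 e ∧ x.2 e ≤ 1) :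
    (playX σ R [] ∅ (board N) (fun _ => 0)).toOuterMeasure
      {x | ¬ Disc θ Λ K x.1 x.2} ≤
      ENNReal.ofReal ((N : ℝ) ^ K * 2 ^ N * Real.exp (-(θ * Λ / 2))) := by
  classical
  set p := playX σ R [] ∅ (board N) (fun _ => 0) with hp
  set I : Finset (Finset (Fin N) × Finset (Fin N)) :=
    (Finset.powersetCard K Finset.univ) ×ˢ Finset.univ with hI
  have hsub : {x : Finset (Sym2 (Fin N)) × (Sym2 (Fin N) → ℝ) | ¬ Disc θ Λ K x.1 x.2} ⊆
      ⋃ i ∈ I, {x | ∑ z ∈ i.1, ∑ y ∈ i.2, (mk x.1 z y - (1 - θ) * wt x.2 z y) ≤ -Λ} := by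
    intro x hx
    simp only [Set.mem_ofPred_eq, Disc, not_forall, not_lt] at hx
    obtain ⟨Z, F, hZ, hle⟩ := hx
    simp only [Set.mem_iUnion, Set.mem_ofPred_eq]
    exact ⟨(Z, F), by simp [hI, hZ, Finset.mem_powersetCard], hle⟩
  calc p.toOuterMeasure {x | ¬ Disc θ Λ K x.1 x.2} ≤ p.toOuterMeasure (⋃ i ∈ I,
        {x | ∑ z ∈ i.1, ∑ y ∈ i.2, (mk x.1 z y - (1 - θ) * wt x.2 z y) ≤ -Λ}) :=
        p.toOuterMeasure.mono hsub
    _ ≤ ∑ i ∈ I, p.toOuterMeasure {x | ∑ z ∈ i.1, ∑ y ∈ i.2, (mk x.1 z y - (1 - θ) * wt x.2 z y) ≤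
          -Λ} := MeasureTheory.measure_biUnion_finset_le _ _
    _ ≤ ∑ i ∈ I, ENNReal.ofReal (Real.exp (-(θ * Λ / 2))) :=
        Finset.sum_le_sum fun i _ => box_prob σ R θ Λ hθ hinv i.1 i.2
    _ = (I.card : ℝ≥0∞) * ENNReal.ofReal (Real.exp (-(θ * Λ / 2))) := by
        rw [Finset.sum_const, nsmul_eq_mul]
    _ ≤ _ := by
        rw [ENNReal.ofReal_mul (by positivity)]
        gcongr
        rw [← ENNReal.ofReal_natCast]
        apply ENNReal.ofReal_le_ofReal
        rw [hI, Finset.card_product, Finset.card_powersetCard]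
        simp only [Finset.card_univ, Fintype.card_finset, Fintype.card_fin]
        push_cast
        gcongr
        exact_mod_cast Nat.choose_le_pow N K

end Disc

end Pool.Agent.Helper610.RM
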