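import Mathlib
import Pool.Agent.Helper610.RM.Disc

set_option autoImplicit false
set_option linter.unusedSectionVars false

namespace Pool.Agent.Helper610.RM

open scoped ENNReal
open Filter Topology

section Core

/-- A set on which every point has energy at most the average (times a bit). -/
lemma exists_core {N : ℕ} (L : Fin N → Fin N → ℝ) (h0 : ∀ v x, 0 ≤ L v x)
    (hs : ∀ v x, L v x = L x v) (hd : ∀ v, L v v = 0) (C lam : ℝ)
    (hC : ∑ v, ∑ x, L v x ≤ C * N ^ 2) :
    ∃ G : Finset (Fin N), (∀ v ∈ G, ∑ x ∈ G, L v x ≤ lam * G.card) ∧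
      (lam - C) * N ^ 2 ≤ lam * (G.card * (G.card + 1)) := by
  classical
  set Φ : Finset (Fin N) → ℝ := fun G => ∑ v ∈ G, ∑ x ∈ G, L v x - lam * (G.card * (G.card + 1))
    with hΦ
  obtain ⟨G, _, hG⟩ := Finset.exists_min_image (Finset.univ : Finset (Finset (Fin N))) Φ
    ⟨∅, Finset.mem_univ _⟩
  refine ⟨G, ?_, ?_⟩
  · intro v hv
    have h1 := hG (G.erase v) (Finset.mem_univ _)
    have hcard : (G.erase v).card + 1 = G.card := Finset.card_erase_add_one hv
    have hcr : ((G.erase v).card : ℝ) = G.card - 1 := by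
      have : ((G.erase v).card : ℝ) + 1 = G.card := by exact_mod_cast hcard
      linarith
    have h2 : ∑ a ∈ G, ∑ x ∈ G, L a x = ∑ a ∈ G.erase v, ∑ x ∈ G.erase v, L a x +
        2 * ∑ x ∈ G, L v x := by
      have e1 : ∀ a, ∑ x ∈ G, L a x = ∑ x ∈ G.erase v, L a x + L a v := by
        intro a
        rw [← Finset.sum_erase_add _ _ hv]
      rw [← Finset.sum_erase_add _ _ hv]
      have e2 : ∑ a ∈ G.erase v, ∑ x ∈ G, L a x = ∑ a ∈ G.erase v, ∑ x ∈ G.erase v, L a x +
          ∑ a ∈ G.erase v, L a v := by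
        rw [← Finset.sum_add_distrib]
        exact Finset.sum_congr rfl fun a _ => e1 a
      have e3 : ∑ a ∈ G.erase v, L a v = ∑ x ∈ G, L v x := by
        rw [e1 v, hd, add_zero]
        exact Finset.sum_congr rfl fun a _ => hs a v
      rw [e2, e3]
      ring
    simp only [hΦ] at h1
    rw [h2, hcr] at h1
    nlinarith
  · have h1 := hG Finset.univ (Finset.mem_univ _)
    simp only [hΦ, Finset.card_univ, Fintype.card_fin] at h1
    have h2 : 0 ≤ ∑ v ∈ G, ∑ x ∈ G, L v x :=
      Finset.sum_nonneg fun _ _ => Finset.sum_nonneg fun _ _ => h0 _ _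
    by_cases hl : 0 ≤ lam
    · have h3 : 0 ≤ lam * N := by positivity
      nlinarith
    · -- lam negative: then C nonneg
      push Not at hl
      by_cases hN : N = 0
      · subst hN
        have : G = ∅ := Subsingleton.elim _ _
        subst this
        simp
      · have hCn : 0 ≤ C := by
          have h4 : 0 ≤ ∑ v, ∑ x, L v x :=
            Finset.sum_nonneg fun _ _ => Finset.sum_nonneg fun _ _ => h0 _ _
          have h5 : (0 : ℝ) < (N : ℝ) ^ 2 := by
            have : 0 < N := Nat.pos_of_ne_zero hN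
            positivity
          by_contra hc
          push Not at hc
          nlinarith
        have hGN : (G.card : ℝ) ≤ N := by
          have := Finset.card_le_univ G
          simpa using this
        have hG0 : (0 : ℝ) ≤ G.card := by positivity
        have hN1 : (1 : ℝ) ≤ N := by
          have : 1 ≤ N := Nat.pos_of_ne_zero hN
          exact_mod_cast this
        -- use the empty set instead
        have h6 := hG ∅ (Finset.mem_univ _)
        simp only [hΦ, Finset.sum_empty, Finset.card_empty] at h6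
        norm_num at h6
        have h7 : 0 ≤ -lam * (G.card * (G.card + 1)) := by
          have : 0 ≤ (G.card : ℝ) * (G.card + 1) := by positivity
          nlinarith
        have h8 : lam * (G.card * (G.card + 1)) = 0 ∨ True := Or.inr trivial
        nlinarith [mul_nonneg (neg_nonneg.2 hl.le) (sq_nonneg (N : ℝ)), mul_nonneg hCn (sq_nonneg (N : ℝ))]

end Core

section Count

variable {N : ℕ}

lemma mk_bounds (M : Finset (Sym2 (Fin N))) (v x : Fin N) : 0 ≤ mk M v x ∧ mk M v x ≤ 1 := by
  unfold mk; split_ifs <;> norm_num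

/-- ordered cliques inside `G` -/
def T (M : Finset (Sym2 (Fin N))) (G : Finset (Fin N)) (k : ℕ) : Finset (Fin k → Fin N) :=
  Finset.univ.filter fun v => (∀ i, v i ∈ G) ∧ ∀ i j, i ≠ j → s(v i, v j) ∈ M

lemma mem_T {M : Finset (Sym2 (Fin N))} {G : Finset (Fin N)} {k : ℕ} {v : Fin k → Fin N} :
    v ∈ T M G k ↔ (∀ i, v i ∈ G) ∧ ∀ i j, i ≠ j → s(v i, v j) ∈ M := by
  simp [T]

/-- hybrid count of extensions -/
noncomputable def hyb (M : Finset (Sym2 (Fin N))) (w : Sym2 (Fin N) → ℝ) (G : Finset (Fin N))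
    {k : ℕ} (v : Fin k → Fin N) (i : ℕ) : ℝ :=
  ∑ x ∈ G, ∏ j : Fin k, if (j : ℕ) < i then mk M (v j) x else wt w (v j) x

/-- the extensions of a clique -/
def ext (M : Finset (Sym2 (Fin N))) (G : Finset (Fin N)) {k : ℕ} (v : Fin k → Fin N) :
    Finset (Fin N) :=
  G.filter fun x => ∀ j, s(v j, x) ∈ M

lemma hyb_top (M : Finset (Sym2 (Fin N))) (w : Sym2 (Fin N) → ℝ) (G : Finset (Fin N))
    {k : ℕ} (v : Fin k → Fin N) : hyb M w G v k = ((ext M G v).card : ℝ) := by
  classical
  unfold hyb ext mk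
  rw [Finset.card_filter]
  push_cast
  refine Finset.sum_congr rfl fun x _ => ?_
  have : ∀ j : Fin k, (if (j : ℕ) < k then (if s(v j, x) ∈ M then (1 : ℝ) else 0) else wt w (v j) x) =
      if s(v j, x) ∈ M then 1 else 0 := fun j => if_pos j.2
  simp only [this]
  rw [Finset.prod_boole]
  simp

lemma card_T_succ (M : Finset (Sym2 (Fin N))) (G : Finset (Fin N)) (k : ℕ)
    (S : Finset (Fin k → Fin N)) (hS : S ⊆ T M G k) :
    ∑ v ∈ S, (ext M G v).card ≤ (T M G (k + 1)).card := by
  classical
  rw [← Finset.card_sigma]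
  refine Finset.card_le_card_of_injOn (fun a => Fin.snoc a.1 a.2) ?_ ?_
  · rintro ⟨v, x⟩ ha
    simp only [Finset.coe_sigma, Set.mem_sigma_iff, Finset.mem_coe] at ha
    obtain ⟨hv, hx⟩ := ha
    have hvT := mem_T.1 (hS hv)
    rw [ext, Finset.mem_filter] at hx
    simp only [Finset.mem_coe]
    rw [mem_T]
    constructor
    · intro i
      refine Fin.lastCases ?_ (fun i => ?_) i
      · simpa using hx.1
      · simpa using hvT.1 i
    · intro i j
      refine Fin.lastCases ?_ (fun i => ?_) i
      · refine Fin.lastCases ?_ (fun j => ?_) j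
        · intro h; exact absurd rfl h
        · intro _
          simp only [Fin.snoc_last, Fin.snoc_castSucc]
          rw [Sym2.eq_swap]
          exact hx.2 j
      · refine Fin.lastCases ?_ (fun j => ?_) j
        · intro _
          simp only [Fin.snoc_last, Fin.snoc_castSucc]
          exact hx.2 i
        · intro hij
          simp only [Fin.snoc_castSucc]
          exact hvT.2 i j fun h => hij (by rw [h])
  · rintro ⟨v, x⟩ _ ⟨v', x'⟩ _ h
    simp only at h
    have h1 : v = v' := by
      have := congrArg Fin.init h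
      simpa using this
    subst h1
    have h2 : x = x' := by
      have := congrFun h (Fin.last k)
      simpa using this
    subst h2
    rfl

/-- the bad vertices for given others -/
lemma bad_card (M : Finset (Sym2 (Fin N))) (w : Sym2 (Fin N) → ℝ) (G : Finset (Fin N))
    (hw : ∀ e ∈ board N, 0 < w e ∧ w e ≤ 1) (θ Λ : ℝ) (K : ℕ) (hK : 0 < K)
    (hD : Disc θ Λ K M w) {n : ℕ} (i : Fin (n + 1)) (u : Fin n → Fin N) :
    (Finset.univ.filter fun z : Fin N =>
      hyb M w G (i.insertNth z u : Fin (n + 1) → Fin N) (i + 1) <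
        (1 - θ) * hyb M w G (i.insertNth z u : Fin (n + 1) → Fin N) i - Λ / K).card < K := by
  classical
  by_contra hcon
  push Not at hcon
  obtain ⟨Z, hZs, hZc⟩ := Finset.exists_subset_card_eq hcon
  set f : Fin N → ℝ := fun x => ∏ j : Fin n, if ((i.succAbove j : Fin (n + 1)) : ℕ) < i then
    mk M (u j) x else wt w (u j) x with hf
  have hf0 : ∀ x, 0 ≤ f x := by
    intro x
    refine Finset.prod_nonneg fun j _ => ?_
    split_ifs
    · exact (mk_bounds _ _ _).1
    · exact (wt_le_one w hw _ _).1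
  have hf1 : ∀ x, f x ≤ 1 := by
    intro x
    refine Finset.prod_le_one (fun j _ => ?_) (fun j _ => ?_)
    · split_ifs
      · exact (mk_bounds _ _ _).1
      · exact (wt_le_one w hw _ _).1
    · split_ifs
      · exact (mk_bounds _ _ _).2
      · exact (wt_le_one w hw _ _).2
  have hdiff : ∀ z : Fin N, hyb M w G (i.insertNth z u : Fin (n + 1) → Fin N) (i + 1) -
      (1 - θ) * hyb M w G (i.insertNth z u : Fin (n + 1) → Fin N) i =
      ∑ x ∈ G, f x * (mk M z x - (1 - θ) * wt w z x) := by
    intro z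
    unfold hyb
    rw [Finset.mul_sum, ← Finset.sum_sub_distrib]
    refine Finset.sum_congr rfl fun x _ => ?_
    rw [Fin.prod_univ_succAbove _ i, Fin.prod_univ_succAbove _ i]
    simp only [Fin.insertNth_apply_same, Fin.insertNth_apply_succAbove, Nat.lt_succ_self,
      if_true, lt_irrefl, if_false]
    have h1 : ∀ j : Fin n, (((i.succAbove j : Fin (n + 1)) : ℕ) < i + 1 ↔
        ((i.succAbove j : Fin (n + 1)) : ℕ) < i) := by
      intro j
      have h2 : ((i.succAbove j : Fin (n + 1)) : ℕ) ≠ i := by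
        intro h
        exact Fin.succAbove_ne i j (Fin.ext h)
      omega
    simp only [h1]
    ring
  have hKr : (0 : ℝ) < K := by exact_mod_cast hK
  have hsum : ∑ z ∈ Z, ∑ x ∈ G, f x * (mk M z x - (1 - θ) * wt w z x) ≤ -Λ := by
    have h1 : ∀ z ∈ Z, ∑ x ∈ G, f x * (mk M z x - (1 - θ) * wt w z x) ≤ -(Λ / K) := by
      intro z hz
      have h2 := (Finset.mem_filter.1 (hZs hz)).2
      rw [← hdiff z]
      linarith
    calc ∑ z ∈ Z, ∑ x ∈ G, f x * (mk M z x - (1 - θ) * wt w z x) ≤ ∑ z ∈ Z, -(Λ / K) :=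
          Finset.sum_le_sum h1
      _ = -Λ := by rw [Finset.sum_const, hZc, nsmul_eq_mul]; field_simp
  rw [Finset.sum_comm] at hsum
  have h3 : ∀ x, ∑ z ∈ Z, f x * (mk M z x - (1 - θ) * wt w z x) =
      f x * ∑ z ∈ Z, (mk M z x - (1 - θ) * wt w z x) := by
    intro x; rw [Finset.mul_sum]
  simp only [h3] at hsum
  set A : Fin N → ℝ := fun x => ∑ z ∈ Z, (mk M z x - (1 - θ) * wt w z x) with hA
  have h4 : ∑ x ∈ G.filter (fun x => A x < 0), A x ≤ ∑ x ∈ G, f x * A x := by
    rw [Finset.sum_filter]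
    refine Finset.sum_le_sum fun x _ => ?_
    split_ifs with h
    · nlinarith [hf0 x, hf1 x]
    · push Not at h
      exact mul_nonneg (hf0 x) h
  have h5 := hD Z (G.filter fun x => A x < 0) hZc
  rw [Finset.sum_comm] at h5
  have h6 : ∑ x ∈ G.filter (fun x => A x < 0), A x = ∑ y ∈ G.filter (fun x => A x < 0), ∑ z ∈ Z,
      (mk M z y - (1 - θ) * wt w z y) := rfl
  rw [← h6] at h5
  have h7 : ∑ x ∈ G, f x * A x = ∑ x ∈ G, f x * ∑ z ∈ Z, (mk M z x - (1 - θ) * wt w z x) := rfl
  rw [← h7] at hsum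
  linarith

/-- the bad cliques at position `i` -/
lemma bad_cliques (M : Finset (Sym2 (Fin N))) (w : Sym2 (Fin N) → ℝ) (G : Finset (Fin N))
    (hw : ∀ e ∈ board N, 0 < w e ∧ w e ≤ 1) (θ Λ : ℝ) (K : ℕ) (hK : 0 < K)
    (hD : Disc θ Λ K M w) {n : ℕ} (i : Fin (n + 1)) :
    ((T M G (n + 1)).filter fun v => hyb M w G v (i + 1) < (1 - θ) * hyb M w G v i - Λ / K).card ≤
      K * (T M G n).card := by
  classical
  refine Finset.card_le_mul_card_image_of_maps_to (f := fun v => i.removeNth v) ?_ K ?_
  · intro v hv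
    have h1 := mem_T.1 (Finset.mem_filter.1 hv).1
    rw [mem_T]
    refine ⟨fun j => h1.1 _, fun a b hab => ?_⟩
    exact h1.2 _ _ fun h => hab (Fin.succAbove_right_injective h)
  · intro u _
    refine le_trans ?_ (bad_card M w G hw θ Λ K hK hD i u).le
    refine Finset.card_le_card_of_injOn (fun v => v i) ?_ ?_
    · intro v hv
      simp only [Finset.coe_filter, Set.mem_ofPred_eq] at hv
      have hins : (i.insertNth (v i) u : Fin (n + 1) → Fin N) = v := by
        rw [← hv.2]
        exact Fin.insertNth_self_removeNth i v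
      simp only [Finset.coe_filter, Set.mem_ofPred_eq, Finset.mem_univ, true_and]
      rw [hins]
      have := (Finset.mem_filter.1 hv.1).2
      exact this
    · intro v hv v' hv' h
      simp only [Finset.coe_filter, Set.mem_ofPred_eq] at hv hv'
      have h1 : (i.insertNth (v i) u : Fin (n + 1) → Fin N) = v := by
        rw [← hv.2]; exact Fin.insertNth_self_removeNth i v
      have h2 : (i.insertNth (v' i) u : Fin (n + 1) → Fin N) = v' := by
        rw [← hv'.2]; exact Fin.insertNth_self_removeNth i v'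
      simp only at h
      rw [← h1, ← h2, h]

/-- Jensen lower bound for the number of common neighbours in the compensator graph. -/
lemma hyb_zero_ge (M : Finset (Sym2 (Fin N))) (w : Sym2 (Fin N) → ℝ) (G : Finset (Fin N))
    (hw : ∀ e ∈ board N, 0 < w e ∧ w e ≤ 1) (lam : ℝ)
    (hG : ∀ v ∈ G, ∑ x ∈ G, wt (fun e => -Real.log (w e)) v x ≤ lam * G.card)
    {k : ℕ} (hk : k < G.card) (v : Fin k → Fin N) (hv : ∀ i, v i ∈ G) :
    ((G.card : ℝ) - k) * Real.exp (-(k * (lam * G.card) / (G.card - k))) ≤ hyb M w G v 0 := by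
  classical
  set G' := G \ (Finset.univ.image v) with hG'
  have hcard : G.card - k ≤ G'.card := by
    rw [hG']
    have h1 := Finset.le_card_sdiff (Finset.univ.image v) G
    have h2 : (Finset.univ.image v).card ≤ k := by
      simpa using Finset.card_image_le (s := (Finset.univ : Finset (Fin k))) (f := v)
    omega
  have hg : ((G.card : ℝ) - k) ≤ G'.card := by
    have : ((G.card - k : ℕ) : ℝ) ≤ G'.card := by exact_mod_cast hcard
    rwa [Nat.cast_sub hk.le] at this
  have hpos : (0 : ℝ) < (G.card : ℝ) - k := by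
    have : (k : ℝ) < G.card := by exact_mod_cast hk
    linarith
  have hposG' : (0 : ℝ) < G'.card := by linarith
  set E : Fin N → ℝ := fun x => ∑ j : Fin k, wt (fun e => -Real.log (w e)) (v j) x with hE
  have h1 : ∑ x ∈ G', Real.exp (-(E x)) ≤ hyb M w G v 0 := by
    unfold hyb
    have hsub : G' ⊆ G := Finset.sdiff_subset
    refine le_trans ?_ (Finset.sum_le_sum_of_subset_of_nonneg hsub (fun x _ _ => ?_))
    · refine Finset.sum_le_sum fun x hx => ?_
      simp only [Nat.not_lt_zero, if_false]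
      have hne : ∀ j, v j ≠ x := by
        intro j hj
        rw [hG', Finset.mem_sdiff] at hx
        exact hx.2 (by rw [← hj]; exact Finset.mem_image_of_mem _ (Finset.mem_univ _))
      rw [hE]
      simp only
      rw [← Finset.sum_neg_distrib, Real.exp_sum]
      refine le_of_eq (Finset.prod_congr rfl fun j _ => ?_)
      unfold wt
      rw [if_neg (hne j), if_neg (hne j), neg_neg, Real.exp_log]
      exact (hw _ (by simp [board, hne j])).1
    · refine Finset.prod_nonneg fun j _ => ?_
      simp only [Nat.not_lt_zero, if_false]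
      exact (wt_le_one w hw _ _).1
  have h2 : ∑ x ∈ G', E x ≤ k * (lam * G.card) := by
    have hLnn : ∀ a b, 0 ≤ wt (fun e => -Real.log (w e)) a b := by
      intro a b
      unfold wt
      split_ifs with h
      · exact le_rfl
      · have := hw s(a, b) (by simp [board, h])
        have := Real.log_nonpos this.1.le this.2
        linarith
    calc ∑ x ∈ G', E x ≤ ∑ x ∈ G, E x :=
          Finset.sum_le_sum_of_subset_of_nonneg Finset.sdiff_subset
            (fun x _ _ => Finset.sum_nonneg fun j _ => hLnn _ _)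
      _ = ∑ j : Fin k, ∑ x ∈ G, wt (fun e => -Real.log (w e)) (v j) x := Finset.sum_comm
      _ ≤ ∑ j : Fin k, lam * G.card := Finset.sum_le_sum fun j _ => hG _ (hv j)
      _ = k * (lam * G.card) := by simp
  have hEnn : 0 ≤ k * (lam * G.card) := by
    refine le_trans (Finset.sum_nonneg fun x _ => ?_) h2
    refine Finset.sum_nonneg fun j _ => ?_
    unfold wt
    split_ifs with h
    · exact le_rfl
    · have := hw s(v j, x) (by simp [board, h])
      have := Real.log_nonpos this.1.le this.2
      linarith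
  have h3 : (G'.card : ℝ) * Real.exp (-((∑ x ∈ G', E x) / G'.card)) ≤ ∑ x ∈ G', Real.exp (-(E x)) := by
    have hj := convexOn_exp.map_sum_le (t := G') (w := fun _ => (1 : ℝ) / G'.card)
      (p := fun x => -(E x)) (fun _ _ => by positivity)
      (by rw [Finset.sum_const, nsmul_eq_mul]; field_simp) (fun _ _ => Set.mem_univ _)
    simp only [smul_eq_mul] at hj
    rw [← Finset.mul_sum, ← Finset.mul_sum, Finset.sum_neg_distrib] at hj
    have h4 : (1 : ℝ) / G'.card * -∑ x ∈ G', E x = -((∑ x ∈ G', E x) / G'.card) := by ring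
    rw [h4] at hj
    calc (G'.card : ℝ) * Real.exp (-((∑ x ∈ G', E x) / G'.card)) ≤
          (G'.card : ℝ) * (1 / G'.card * ∑ x ∈ G', Real.exp (-(E x))) := by gcongr
      _ = _ := by field_simp
  refine le_trans ?_ (h3.trans h1)
  have h5 : (∑ x ∈ G', E x) / G'.card ≤ k * (lam * G.card) / (G.card - k) := by
    rw [div_le_div_iff₀ hposG' hpos]
    calc (∑ x ∈ G', E x) * (G.card - k) ≤ (k * (lam * G.card)) * (G.card - k) := by gcongr
      _ ≤ (k * (lam * G.card)) * G'.card := by gcongr
  have h6 : Real.exp (-(k * (lam * G.card) / (G.card - k))) ≤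
      Real.exp (-((∑ x ∈ G', E x) / G'.card)) := Real.exp_le_exp.2 (by linarith)
  exact mul_le_mul hg h6 (Real.exp_pos _).le hposG'.le

/-- Main counting step. -/
lemma count_step (M : Finset (Sym2 (Fin N))) (w : Sym2 (Fin N) → ℝ) (G : Finset (Fin N))
    (hw : ∀ e ∈ board N, 0 < w e ∧ w e ≤ 1) (θ Λ : ℝ) (hθ0 : 0 ≤ θ) (hθ1 : θ ≤ 1) (hΛ : 0 ≤ Λ)
    (K : ℕ) (hK : 0 < K) (hD : Disc θ Λ K M w) (lam : ℝ)
    (hG : ∀ v ∈ G, ∑ x ∈ G, wt (fun e => -Real.log (w e)) v x ≤ lam * G.card)
    (H : ℝ) (k₀ : ℕ) (hk₀ : k₀ < G.card)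
    (hθk : k₀ * θ ≤ 1 / 2)
    (hH : ∀ k ≤ k₀, H ≤ ((G.card : ℝ) - k) * Real.exp (-(k * (lam * G.card) / (G.card - k))) / 2 -
      k * (Λ / K)) (hHK : 4 * (k₀ + 1) * K ≤ H) :
    ∀ k ≤ k₀, 0 < (T M G k).card ∧ H / 2 * (T M G k).card ≤ (T M G (k + 1)).card := by
  classical
  have hHpos : 0 < H := lt_of_lt_of_le (by positivity) hHK
  -- telescoping
  have hΛK : 0 ≤ Λ / K := by positivity
  have tele : ∀ (k : ℕ) (v : Fin k → Fin N), 0 ≤ hyb M w G v 0 →
      (∀ i : Fin k, (1 - θ) * hyb M w G v i - Λ / K ≤ hyb M w G v (i + 1)) →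
      ∀ m : ℕ, m ≤ k → (1 - m * θ) * hyb M w G v 0 - m * (Λ / K) ≤ hyb M w G v m := by
    intro k v hv0 h m
    induction m with
    | zero => intro _; simp
    | succ m ih =>
      intro hm
      have h1 := ih (by omega)
      have h2 := h ⟨m, by omega⟩
      simp only at h2
      push_cast
      have h3 : (1 - θ) * ((1 - m * θ) * hyb M w G v 0 - m * (Λ / K)) ≤ (1 - θ) * hyb M w G v m :=
        mul_le_mul_of_nonneg_left h1 (by linarith)
      have h4 : 0 ≤ θ * (m * θ) * hyb M w G v 0 := by positivity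
      have h5 : 0 ≤ θ * (m * (Λ / K)) := by positivity
      nlinarith
  intro k
  induction k with
  | zero =>
    intro _
    have hT0 : (T M G 0).card = 1 := by
      have : T M G 0 = Finset.univ := by
        ext v
        simp only [mem_T, Finset.mem_univ, iff_true]
        exact ⟨fun i => i.elim0, fun i => i.elim0⟩
      rw [this]; simp
    refine ⟨by rw [hT0]; norm_num, ?_⟩
    have h1 := card_T_succ M G 0 (T M G 0) (Finset.Subset.refl _)
    have h2 : ∀ v ∈ T M G 0, H ≤ ((ext M G v).card : ℝ) := by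
      intro v hv
      rw [← hyb_top M w G v]
      have h3 := hH 0 (Nat.zero_le _)
      have h4 := hyb_zero_ge M w G hw lam hG (k := 0) (by omega) v (fun i => i.elim0)
      simp only [Nat.cast_zero, zero_mul, sub_zero] at h3 h4
      have h5 : 0 ≤ (G.card : ℝ) * Real.exp (-(0 / (G.card : ℝ))) := by positivity
      linarith
    have h3 : H * (T M G 0).card ≤ ((∑ v ∈ T M G 0, (ext M G v).card : ℕ) : ℝ) := by
      push_cast
      calc H * (T M G 0).card = ∑ v ∈ T M G 0, H := by rw [Finset.sum_const, nsmul_eq_mul]; ring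
        _ ≤ _ := Finset.sum_le_sum h2
    have h4 : ((∑ v ∈ T M G 0, (ext M G v).card : ℕ) : ℝ) ≤ (T M G (0 + 1)).card := by
      exact_mod_cast h1
    have h5 : (0 : ℝ) ≤ (T M G 0).card := by positivity
    nlinarith
  | succ n ih =>
    intro hn
    obtain ⟨ih1, ih2⟩ := ih (by omega)
    have hpos' : (0 : ℝ) < (T M G n).card := by exact_mod_cast ih1
    have hTpos : (0 : ℝ) < (T M G (n + 1)).card := lt_of_lt_of_le (by positivity) ih2
    refine ⟨by exact_mod_cast hTpos, ?_⟩
    set bad : Finset (Fin (n + 1) → Fin N) := (Finset.univ : Finset (Fin (n + 1))).biUnion fun i =>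
      (T M G (n + 1)).filter fun v => hyb M w G v (i + 1) < (1 - θ) * hyb M w G v i - Λ / K with hbad
    have hbadc : bad.card ≤ (n + 1) * (K * (T M G n).card) := by
      calc bad.card ≤ ∑ i : Fin (n + 1), ((T M G (n + 1)).filter fun v =>
            hyb M w G v (i + 1) < (1 - θ) * hyb M w G v i - Λ / K).card := Finset.card_biUnion_le
        _ ≤ ∑ i : Fin (n + 1), K * (T M G n).card :=
            Finset.sum_le_sum fun i _ => bad_cliques M w G hw θ Λ K hK hD i
        _ = _ := by simp
    have hbadT : bad ⊆ T M G (n + 1) := by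
      intro v hv
      rw [hbad, Finset.mem_biUnion] at hv
      obtain ⟨i, _, hi⟩ := hv
      exact (Finset.mem_filter.1 hi).1
    set S := T M G (n + 1) \ bad with hS
    have hScard : (S.card : ℝ) = (T M G (n + 1)).card - bad.card := by
      rw [hS, Finset.card_sdiff_of_subset hbadT, Nat.cast_sub (Finset.card_le_card hbadT)]
    have hbr : (bad.card : ℝ) ≤ (n + 1) * (K * (T M G n).card) := by exact_mod_cast hbadc
    have hhalf : (bad.card : ℝ) ≤ (T M G (n + 1)).card / 2 := by
      have h1 : (T M G n).card ≤ 2 / H * ((T M G (n + 1)).card : ℝ) := by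
        rw [div_mul_eq_mul_div, le_div_iff₀ hHpos]
        linarith
      have hnk : ((n : ℝ) + 1) ≤ k₀ + 1 := by
        have : (n : ℝ) + 1 ≤ k₀ := by exact_mod_cast hn
        linarith
      calc (bad.card : ℝ) ≤ (n + 1) * (K * (T M G n).card) := hbr
        _ ≤ (k₀ + 1) * (K * (2 / H * ((T M G (n + 1)).card : ℝ))) := by gcongr
        _ = (4 * (k₀ + 1) * K) / H * ((T M G (n + 1)).card / 2) := by ring
        _ ≤ 1 * ((T M G (n + 1)).card / 2) := by
            gcongr
            rw [div_le_one hHpos]; exact hHK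
        _ = _ := one_mul _
    have hSge : ((T M G (n + 1)).card : ℝ) / 2 ≤ S.card := by rw [hScard]; linarith
    have hext : ∀ v ∈ S, H ≤ ((ext M G v).card : ℝ) := by
      intro v hv
      rw [hS, Finset.mem_sdiff] at hv
      have hvT := mem_T.1 hv.1
      have hgood : ∀ i : Fin (n + 1), (1 - θ) * hyb M w G v i - Λ / K ≤ hyb M w G v (i + 1) := by
        intro i
        by_contra hcon
        push Not at hcon
        exact hv.2 (Finset.mem_biUnion.2 ⟨i, Finset.mem_univ _, Finset.mem_filter.2 ⟨hv.1, hcon⟩⟩)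
      rw [← hyb_top M w G v]
      have h2 := hyb_zero_ge M w G hw lam hG (k := n + 1) (by omega) v hvT.1
      have hgk : ((n + 1 : ℕ) : ℝ) < G.card := by
        have : n + 1 < G.card := by omega
        exact_mod_cast this
      have h20 : 0 ≤ ((G.card : ℝ) - (n + 1 : ℕ)) *
          Real.exp (-((n + 1 : ℕ) * (lam * G.card) / (G.card - (n + 1 : ℕ)))) :=
        mul_nonneg (by linarith) (Real.exp_pos _).le
      have h21 : 0 ≤ hyb M w G v 0 := h20.trans h2
      have h1 := tele (n + 1) v h21 hgood (n + 1) le_rfl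
      have h3 := hH (n + 1) hn
      have h6 : ((n + 1 : ℕ) : ℝ) * θ ≤ 1 / 2 := by
        refine le_trans ?_ hθk
        gcongr
      have h7 : 1 / 2 * hyb M w G v 0 ≤ (1 - ((n + 1 : ℕ) : ℝ) * θ) * hyb M w G v 0 :=
        mul_le_mul_of_nonneg_right (by linarith) h21
      linarith
    have h1 := card_T_succ M G (n + 1) S Finset.sdiff_subset
    have h2 : H * S.card ≤ ((∑ v ∈ S, (ext M G v).card : ℕ) : ℝ) := by
      push_cast
      calc H * S.card = ∑ v ∈ S, H := by rw [Finset.sum_const, nsmul_eq_mul]; ring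
        _ ≤ _ := Finset.sum_le_sum hext
    have h3 : ((∑ v ∈ S, (ext M G v).card : ℕ) : ℝ) ≤ (T M G (n + 1 + 1)).card := by
      exact_mod_cast h1
    calc H / 2 * (T M G (n + 1)).card = H * ((T M G (n + 1)).card / 2) := by ring
      _ ≤ H * S.card := by gcongr
      _ ≤ _ := h2.trans h3

lemma clique_of_T (M : Finset (Sym2 (Fin N))) (hM : M ⊆ board N) (G : Finset (Fin N)) (k : ℕ)
    (h : 0 < (T M G k).card) :
    ¬ (SimpleGraph.fromEdgeSet (M : Set (Sym2 (Fin N)))).CliqueFree k := by
  classical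
  obtain ⟨v, hv⟩ := Finset.card_pos.1 h
  have hv' := mem_T.1 hv
  have hinj : Function.Injective v := by
    intro i j hij
    by_contra hne
    have h1 := hM (hv'.2 i j hne)
    rw [hij] at h1
    simp [board] at h1
  intro hfree
  refine hfree (Finset.univ.image v) ⟨?_, ?_⟩
  · intro a ha b hb hab
    simp only [Finset.coe_image, Finset.coe_univ, Set.image_univ, Set.mem_range] at ha hb
    obtain ⟨i, rfl⟩ := ha
    obtain ⟨j, rfl⟩ := hb
    rw [SimpleGraph.fromEdgeSet_adj]
    refine ⟨?_, hab⟩
    exact_mod_cast hv'.2 i j fun h => hab (by rw [h])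
  · rw [Finset.card_image_of_injective _ hinj]
    simp

end Count

end Pool.Agent.Helper610.RM
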