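import Mathlib
import Pool.Agent.Helper610.RM.Det
import Pool.Agent.Helper610.RM.Upper

set_option autoImplicit false
set_option linter.unusedSectionVars false

namespace Pool.Agent.Helper610.RM

open scoped ENNReal
open Filter Topology

/-- Transfer to the clique probability. -/
lemma cliqueProb_ge {N : ℕ} (R K k₀ : ℕ) (hR : 3 * R ≤ (board N).card) (θ Λ : ℝ) (hθ : 0 ≤ θ)
    (σ : List (Sym2 (Fin N)) → Sym2 (Fin N)) (hσ : Legal N σ)
    (hdet : ∀ (h : List (Sym2 (Fin N))) (M U : Finset (Sym2 (Fin N))) (w : Sym2 (Fin N) → ℝ),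
      Inv (board N) R h M U w → Disc θ Λ K M w →
      ¬ (SimpleGraph.fromEdgeSet (M : Set (Sym2 (Fin N)))).CliqueFree k₀)
    (hR0 : 0 < R) (q : ℕ) (hq : q ≤ k₀) :
    1 - ENNReal.ofReal ((N : ℝ) ^ K * 2 ^ N * Real.exp (-(θ * Λ / 2))) ≤ cliqueProb N q σ := by
  classical
  set p := playX σ R [] ∅ (board N) (fun _ => 0) with hp
  have hfin := inv_final (board N) R hR σ hσ R 0 [] ∅ (board N) (fun _ => 0) (by omega)
    (inv_init (board N))
  have hinv : ∀ x ∈ p.support, x.1 ⊆ board N ∧ ∀ e ∈ board N, 0 < x.2 e ∧ x.2 e ≤ 1 := by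
    intro x hx
    obtain ⟨h', U', hI⟩ := hfin x hx
    exact ⟨hI.sub, (inv_sum (board N) R hR0 hR h' x.1 U' x.2 hI).1⟩
  have hdisc := disc_prob σ R θ Λ hθ K hinv
  set A : Set (Finset (Sym2 (Fin N))) :=
    {M | ¬ (SimpleGraph.fromEdgeSet (M : Set (Sym2 (Fin N)))).CliqueFree q} with hA
  have hup : ∀ M M' : Finset (Sym2 (Fin N)), M ⊆ M' → M ∈ A → M' ∈ A := by
    intro M M' hMM hM hfree
    apply hM
    refine SimpleGraph.CliqueFree.anti ?_ hfree
    exact SimpleGraph.fromEdgeSet_mono (by exact_mod_cast hMM)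
  have htr := transfer σ A hup ((board N).card - R) R [] ∅ (board N) (fun _ => 0)
  have hRB : R + ((board N).card - R) = (board N).card := by omega
  rw [hRB] at htr
  have hcl : cliqueProb N q σ = (play σ (board N).card [] ∅ (board N)).toOuterMeasure A := rfl
  rw [hcl]
  refine le_trans ?_ htr
  -- complement
  have hcomp : (1 : ℝ≥0∞) ≤ p.toOuterMeasure {x | x.1 ∈ A} +
      p.toOuterMeasure {x | ¬ Disc θ Λ K x.1 x.2} := by
    have h1 : p.toOuterMeasure (Set.univ ∩ p.support) = 1 := by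
      rw [PMF.toOuterMeasure_apply_inter_support, PMF.toOuterMeasure_apply_eq_one_iff]
      exact Set.subset_univ _
    rw [← h1]
    refine le_trans (p.toOuterMeasure.mono ?_) (MeasureTheory.measure_union_le _ _)
    rintro x ⟨_, hx⟩
    by_cases hD : Disc θ Λ K x.1 x.2
    · left
      obtain ⟨h', U', hI⟩ := hfin x hx
      have h2 := hdet h' x.1 U' x.2 hI hD
      intro hfree
      exact h2 (hfree.mono hq)
    · right; exact hD
  calc 1 - ENNReal.ofReal ((N : ℝ) ^ K * 2 ^ N * Real.exp (-(θ * Λ / 2)))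
      ≤ 1 - p.toOuterMeasure {x | ¬ Disc θ Λ K x.1 x.2} := tsub_le_tsub_left hdisc _
    _ ≤ p.toOuterMeasure {x | x.1 ∈ A} := by
        rw [tsub_le_iff_right]; exact hcomp

/-- The deterministic conclusion with all the parameters. -/
lemma det_clique {N : ℕ} (R K k₀ : ℕ) (hR0 : 0 < R) (hR : 3 * R ≤ (board N).card)
    (θ Λ C lam H : ℝ) (hθ0 : 0 ≤ θ) (hθ1 : θ ≤ 1) (hΛ : 0 ≤ Λ) (hK : 0 < K)
    (hC : (board N).card * Real.log ((board N).card / R) + 2 * R ≤ C * (board N).card)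
    (hC0 : 0 ≤ C)
    (hθk : k₀ * θ ≤ 1 / 2)
    (hg : ∀ g : ℕ, (lam - C) * N ^ 2 ≤ lam * (g * (g + 1)) → k₀ < g ∧
      ∀ k ≤ k₀, H ≤ ((g : ℝ) - k) * Real.exp (-(k * (lam * g) / (g - k))) / 2 - k * (Λ / K))
    (hHK : 4 * (k₀ + 1) * K ≤ H)
    (h : List (Sym2 (Fin N))) (M U : Finset (Sym2 (Fin N))) (w : Sym2 (Fin N) → ℝ)
    (hI : Inv (board N) R h M U w) (hD : Disc θ Λ K M w) :
    ¬ (SimpleGraph.fromEdgeSet (M : Set (Sym2 (Fin N)))).CliqueFree k₀ := by
  classical
  obtain ⟨hw, hsum⟩ := inv_sum (board N) R hR0 hR h M U w hI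
  have hL0 : ∀ v x : Fin N, 0 ≤ wt (fun e => -Real.log (w e)) v x := by
    intro a b
    unfold wt
    split_ifs with h
    · exact le_rfl
    · have := hw s(a, b) (by simp [board, h])
      have := Real.log_nonpos this.1.le this.2
      linarith
  have hLs : ∀ v x : Fin N, wt (fun e => -Real.log (w e)) v x = wt (fun e => -Real.log (w e)) x v := by
    intro a b
    unfold wt
    by_cases h : a = b
    · simp [h]
    · rw [if_neg h, if_neg (Ne.symm h), Sym2.eq_swap]
  have hLd : ∀ v : Fin N, wt (fun e => -Real.log (w e)) v v = 0 := by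
    intro a; simp [wt]
  have hB := card_board N
  have htot : ∑ v, ∑ x, wt (fun e => -Real.log (w e)) v x ≤ C * N ^ 2 := by
    rw [← sum_mu_mul Finset.univ Finset.univ (fun e => -Real.log (w e))]
    calc ∑ e ∈ board N, mu Finset.univ Finset.univ e * -Real.log (w e)
        ≤ ∑ e ∈ board N, 2 * -Real.log (w e) := by
          refine Finset.sum_le_sum fun e he => ?_
          have := hw e he
          have := Real.log_nonpos this.1.le this.2
          exact mul_le_mul_of_nonneg_right (mu_le _ _ _) (by linarith)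
      _ = 2 * ∑ e ∈ board N, -Real.log (w e) := by rw [Finset.mul_sum]
      _ ≤ 2 * (C * (board N).card) := by linarith
      _ = C * (N * (N - 1)) := by rw [hB]; ring
      _ ≤ C * N ^ 2 := by
          apply mul_le_mul_of_nonneg_left _ hC0
          have : (0 : ℝ) ≤ N := by positivity
          nlinarith
  obtain ⟨G, hG1, hG2⟩ := exists_core (wt (fun e => -Real.log (w e))) hL0 hLs hLd C lam htot
  obtain ⟨hk, hH⟩ := hg G.card hG2
  have hcs := count_step M w G hw θ Λ hθ0 hθ1 hΛ K hK hD lam hG1 H k₀ hk hθk hH hHK k₀ le_rfl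
  exact clique_of_T M hI.sub G k₀ hcs.1

/-- numerical part -/
lemma numeric : ∀ᶠ N : ℕ in atTop, ∃ (R K : ℕ) (θ Λ H : ℝ), 0 < R ∧ 3 * R ≤ (board N).card ∧
    0 ≤ θ ∧ θ ≤ 1 ∧ 0 ≤ Λ ∧ 0 < K ∧
    (board N).card * Real.log ((board N).card / R) + 2 * R ≤ 89 / 50 * (board N).card ∧
    ((⌊Real.log N / 4⌋₊ : ℕ) : ℝ) * θ ≤ 1 / 2 ∧
    (∀ g : ℕ, (1869 / 1000 - 89 / 50 : ℝ) * N ^ 2 ≤ 1869 / 1000 * (g * (g + 1)) →
      ⌊Real.log N / 4⌋₊ < g ∧
      ∀ k ≤ ⌊Real.log N / 4⌋₊, H ≤ ((g : ℝ) - k) *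
        Real.exp (-(k * (1869 / 1000 * g) / (g - k))) / 2 - k * (Λ / K)) ∧
    4 * (((⌊Real.log N / 4⌋₊ : ℕ) : ℝ) + 1) * K ≤ H ∧
    (N : ℝ) ^ K * 2 ^ N * Real.exp (-(θ * Λ / 2)) ≤ Real.exp (-N) := by
  have hcast : Tendsto (fun N : ℕ => (N : ℝ)) atTop atTop := tendsto_natCast_atTop_atTop
  have hE1 : ∀ᶠ N : ℕ in atTop, Real.log N + 1 ≤ (N : ℝ) ^ (1 / 200 : ℝ) := by
    have h1 : (fun x : ℝ => Real.log x) =o[atTop] fun x => x ^ (1 / 200 : ℝ) :=
      isLittleO_log_rpow_atTop (by norm_num)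
    have h2 := hcast.eventually (h1.bound (show (0 : ℝ) < 1 / 2 by norm_num))
    have h3 := hcast.eventually ((tendsto_rpow_atTop (show (0 : ℝ) < 1 / 200 by norm_num)).eventually_ge_atTop 2)
    filter_upwards [h2, h3, eventually_ge_atTop 1] with N h2 h3 h4
    have h5 : 0 ≤ Real.log N := Real.log_nonneg (by exact_mod_cast h4)
    rw [Real.norm_eq_abs, Real.norm_eq_abs, abs_of_nonneg h5, abs_of_nonneg (by positivity)] at h2
    linarith
  have hE2 : ∀ᶠ N : ℕ in atTop, (10000 : ℝ) ≤ (N : ℝ) ^ (1 / 200 : ℝ) :=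
    hcast.eventually ((tendsto_rpow_atTop (show (0 : ℝ) < 1 / 200 by norm_num)).eventually_ge_atTop _)
  filter_upwards [hE1, hE2, eventually_ge_atTop 1000] with N hE1 hE2 hN
  set x : ℝ := (N : ℝ) with hx
  have hx1 : (1000 : ℝ) ≤ x := by rw [hx]; exact_mod_cast hN
  have hx0 : 0 < x := by linarith
  set B := (board N).card with hBdef
  have hB : (B : ℝ) = x * (x - 1) / 2 := card_board N
  have hBbig : (602 : ℝ) ≤ B := by rw [hB]; nlinarith
  have hBbig' : 602 ≤ B := by exact_mod_cast hBbig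
  set L : ℝ := Real.log x + 1 with hL
  have hlog0 : 0 ≤ Real.log x := Real.log_nonneg (by linarith)
  have hL1 : 1 ≤ L := by linarith
  set k₀ := ⌊Real.log x / 4⌋₊ with hk₀
  have hk₀le : (k₀ : ℝ) ≤ Real.log x / 4 := Nat.floor_le (by positivity)
  have hk₀L : (k₀ : ℝ) + 1 ≤ L := by linarith
  have hxe : ∀ a b : ℝ, a ≤ b → x ^ a ≤ x ^ b := fun a b hab =>
    Real.rpow_le_rpow_of_exponent_le (by linarith) hab
  set y : ℝ := x ^ (1 / 200 : ℝ) with hy
  have hy1 : (10000 : ℝ) ≤ y := hE2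
  have hLy : L ≤ y := hE1
  set K := Nat.sqrt N + 1 with hKdef
  have hKlow : Real.sqrt x ≤ K := by
    rw [hKdef]
    have h1 : N < (Nat.sqrt N + 1) * (Nat.sqrt N + 1) := Nat.lt_succ_sqrt N
    have h2 : x ≤ ((Nat.sqrt N + 1 : ℕ) : ℝ) ^ 2 := by
      rw [hx, sq]
      exact_mod_cast h1.le
    exact Real.sqrt_le_iff.2 ⟨by positivity, h2⟩
  have hKup : (K : ℝ) ≤ 2 * Real.sqrt x := by
    rw [hKdef]
    have h1 : Nat.sqrt N * Nat.sqrt N ≤ N := Nat.sqrt_le N
    have h2 : ((Nat.sqrt N : ℕ) : ℝ) ≤ Real.sqrt x := by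
      apply Real.le_sqrt_of_sq_le
      rw [sq, hx]
      exact_mod_cast h1
    have h3 : 1 ≤ Real.sqrt x := by
      rw [show (1 : ℝ) = Real.sqrt 1 by simp]
      exact Real.sqrt_le_sqrt (by linarith)
    push_cast
    linarith
  have hsq : Real.sqrt x = x ^ (1 / 2 : ℝ) := Real.sqrt_eq_rpow x
  have hsqpos : 0 < Real.sqrt x := Real.sqrt_pos.2 hx0
  have hKpos : (0 : ℝ) < K := lt_of_lt_of_le hsqpos hKlow
  set θ : ℝ := 1 / (2 * (k₀ + 1)) with hθ
  set Λ : ℝ := 12 * (k₀ + 1) * (x * L) with hΛ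
  set H : ℝ := x ^ (53275 / 100000 : ℝ) / 36 - 12 * y ^ 3 * Real.sqrt x with hH
  have hxL : x ^ (515 / 1000 : ℝ) = y ^ 3 * Real.sqrt x := by
    rw [hsq, hy, ← Real.rpow_natCast, ← Real.rpow_mul hx0.le, ← Real.rpow_add hx0]
    norm_num
  refine ⟨B / 3, K, θ, Λ, H, by omega, by omega, by positivity, ?_, by positivity, by omega, ?_,
    ?_, ?_, ?_, ?_⟩
  · rw [hθ, div_le_one (by positivity)]
    have : (0 : ℝ) ≤ k₀ := by positivity
    linarith
  · -- energy bound
    have hR : ((B / 3 : ℕ) : ℝ) ≤ B / 3 := Nat.cast_div_le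
    have hRl : (B : ℝ) - 2 ≤ 3 * ((B / 3 : ℕ) : ℝ) := by
      have : B ≤ 3 * (B / 3) + 2 := by omega
      have : (B : ℝ) ≤ 3 * ((B / 3 : ℕ) : ℝ) + 2 := by exact_mod_cast this
      linarith
    have hRpos : (0 : ℝ) < ((B / 3 : ℕ) : ℝ) := by linarith
    have hq : (B : ℝ) / ((B / 3 : ℕ) : ℝ) ≤ 301 / 100 := by
      rw [div_le_iff₀ hRpos]
      linarith
    have hqpos : (0 : ℝ) < (B : ℝ) / ((B / 3 : ℕ) : ℝ) := by positivity
    have hlog : Real.log ((B : ℝ) / ((B / 3 : ℕ) : ℝ)) ≤ 301 / 100 / 2.7182 := by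
      have h1 : Real.log ((B : ℝ) / ((B / 3 : ℕ) : ℝ) / Real.exp 1) ≤
          (B : ℝ) / ((B / 3 : ℕ) : ℝ) / Real.exp 1 - 1 :=
        Real.log_le_sub_one_of_pos (by positivity)
      rw [Real.log_div hqpos.ne' (Real.exp_pos 1).ne', Real.log_exp] at h1
      have h2 : (B : ℝ) / ((B / 3 : ℕ) : ℝ) / Real.exp 1 ≤ 301 / 100 / 2.7182 := by
        have h3 := Real.exp_one_gt_d9
        apply div_le_div₀ (by norm_num) hq (by norm_num) (by linarith)
      linarith
    have h4 : (B : ℝ) * Real.log ((B : ℝ) / ((B / 3 : ℕ) : ℝ)) ≤ B * (301 / 100 / 2.7182) :=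
      mul_le_mul_of_nonneg_left hlog (by positivity)
    have h5 : (2 : ℝ) * ((B / 3 : ℕ) : ℝ) ≤ 2 * (B / 3) := by linarith
    have h6 : (B : ℝ) * (301 / 100 / 2.7182) + 2 * (B / 3) ≤ 89 / 50 * B := by
      have : (0 : ℝ) ≤ B := by positivity
      norm_num
      nlinarith
    linarith
  · rw [hθ, mul_one_div, div_le_iff₀ (by positivity)]
    linarith
  · intro g hg
    have hg5 : x / 5 ≤ g := by
      by_contra hcon
      push Not at hcon
      have hg0 : (0 : ℝ) ≤ g := by positivity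
      have h1 : (g : ℝ) * (g + 1) ≤ x / 5 * (x / 5 + 1) := by gcongr
      nlinarith
    have hlogx : Real.log x ≤ x / 100 := by
      -- log x + 1 ≤ x^(1/200) ≤ x/100
      have h1 : y * y ≤ x := by
        rw [hy, ← Real.rpow_add hx0]
        calc x ^ (1 / 200 + 1 / 200 : ℝ) ≤ x ^ (1 : ℝ) := hxe _ _ (by norm_num)
          _ = x := Real.rpow_one x
      have h2 : 100 * y ≤ y * y := by nlinarith
      linarith
    have hk₀x : (k₀ : ℝ) ≤ x / 400 := by linarith
    have hk₀g : (k₀ : ℝ) < g := by linarith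
    refine ⟨by exact_mod_cast hk₀g, ?_⟩
    intro k hk
    have hkr : (k : ℝ) ≤ k₀ := by exact_mod_cast hk
    have hk0 : (0 : ℝ) ≤ k := by positivity
    have hgk : x / 6 ≤ (g : ℝ) - k := by linarith
    have hgkpos : (0 : ℝ) < (g : ℝ) - k := by linarith
    -- exponent
    have hexp : (k : ℝ) * (1869 / 1000 * g) / (g - k) ≤ 1869 / 4000 * Real.log x + 1 := by
      have h1 : (k : ℝ) * (1869 / 1000 * g) / (g - k) = 1869 / 1000 * k +
          1869 / 1000 * k * k / (g - k) := by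
        field_simp
        ring
      rw [h1]
      have h2 : 1869 / 1000 * (k : ℝ) ≤ 1869 / 4000 * Real.log x := by linarith
      have h3 : 1869 / 1000 * (k : ℝ) * k / (g - k) ≤ 1 := by
        rw [div_le_one hgkpos]
        have h4 : (k : ℝ) ≤ L := by linarith
        have h5 : (k : ℝ) * k ≤ L * L := by gcongr
        have h6 : L * L ≤ y * y := by gcongr
        have h7 : 100 * (y * y) ≤ x := by
          have h8 : y ^ 3 ≤ x := by
            rw [hy, ← Real.rpow_natCast, ← Real.rpow_mul hx0.le]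
            calc x ^ (1 / 200 * ((3 : ℕ) : ℝ) : ℝ) ≤ x ^ (1 : ℝ) := hxe _ _ (by norm_num)
              _ = x := Real.rpow_one x
          nlinarith [mul_nonneg (show (0 : ℝ) ≤ y by linarith) (show (0 : ℝ) ≤ y by linarith)]
        nlinarith
      linarith
    have he : Real.exp (-(1869 / 4000 * Real.log x + 1)) ≤
        Real.exp (-((k : ℝ) * (1869 / 1000 * g) / (g - k))) := Real.exp_le_exp.2 (by linarith)
    have he2 : x ^ (-(1869 / 4000) : ℝ) / 3 ≤ Real.exp (-(1869 / 4000 * Real.log x + 1)) := by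
      have h1 : -(1869 / 4000 * Real.log x + 1) = Real.log x * (-(1869 / 4000)) + (-1) := by ring
      rw [h1, Real.exp_add, ← Real.rpow_def_of_pos hx0, div_eq_mul_inv]
      gcongr
      rw [Real.exp_neg]
      apply inv_anti₀ (Real.exp_pos 1)
      have := Real.exp_one_lt_d9
      linarith
    have hmain : x ^ (53275 / 100000 : ℝ) / 36 ≤ ((g : ℝ) - k) *
        Real.exp (-((k : ℝ) * (1869 / 1000 * g) / (g - k))) / 2 := by
      have h1 : x ^ (53275 / 100000 : ℝ) / 36 = x / 6 * (x ^ (-(1869 / 4000) : ℝ) / 3) / 2 := by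
        have : x ^ (53275 / 100000 : ℝ) = x * x ^ (-(1869 / 4000) : ℝ) := by
          nth_rewrite 2 [← Real.rpow_one x]
          rw [← Real.rpow_add hx0]
          norm_num
        rw [this]; ring
      rw [h1]
      gcongr
      exact he2.trans he
    have hsec : (k : ℝ) * (Λ / K) ≤ 12 * y ^ 3 * Real.sqrt x := by
      have h1 : Λ / K ≤ Λ / Real.sqrt x := by
        apply div_le_div_of_nonneg_left (by positivity) hsqpos hKlow
      have h2 : Λ / Real.sqrt x = 12 * (k₀ + 1) * L * Real.sqrt x := by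
        rw [hΛ, div_eq_iff hsqpos.ne']
        have := Real.mul_self_sqrt hx0.le
        calc 12 * ((k₀ : ℝ) + 1) * (x * L) = 12 * (k₀ + 1) * L * x := by ring
          _ = 12 * (k₀ + 1) * L * (Real.sqrt x * Real.sqrt x) := by rw [this]
          _ = _ := by ring
      calc (k : ℝ) * (Λ / K) ≤ L * (12 * L * L * Real.sqrt x) := by
            apply mul_le_mul (by linarith) _ (by positivity) (by positivity)
            refine h1.trans ?_
            rw [h2]
            gcongr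
        _ = 12 * L ^ 3 * Real.sqrt x := by ring
        _ ≤ 12 * y ^ 3 * Real.sqrt x := by gcongr
    rw [hH]
    linarith
  · -- 4 (k0+1) K ≤ H
    have h1 : 4 * ((k₀ : ℝ) + 1) * K ≤ 8 * y * Real.sqrt x := by
      calc 4 * ((k₀ : ℝ) + 1) * K ≤ 4 * L * (2 * Real.sqrt x) := by gcongr
        _ ≤ 4 * y * (2 * Real.sqrt x) := by gcongr
        _ = _ := by ring
    have h2 : x ^ (53275 / 100000 : ℝ) = x ^ (515 / 1000 : ℝ) * x ^ (1775 / 100000 : ℝ) := by
      rw [← Real.rpow_add hx0]; norm_num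
    have h3 : (10000 : ℝ) ≤ x ^ (1775 / 100000 : ℝ) := hy1.trans (hxe _ _ (by norm_num))
    have h4 : x ^ (515 / 1000 : ℝ) * 10000 ≤ x ^ (53275 / 100000 : ℝ) := by
      rw [h2]; gcongr
    have h5 : y ≤ y ^ 3 := by
      have : 1 ≤ y ^ 2 := by nlinarith
      nlinarith
    have h6 : y * Real.sqrt x ≤ y ^ 3 * Real.sqrt x := by gcongr
    have h7 : 0 ≤ y ^ 3 * Real.sqrt x := by positivity
    rw [hH]
    rw [hxL] at h4
    linarith
  · -- probability
    have hKN : (K : ℝ) ≤ x := by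
      refine hKup.trans ?_
      have h1 : 2 ≤ Real.sqrt x := by
        rw [show (2 : ℝ) = Real.sqrt 4 by
          rw [show (4 : ℝ) = 2 ^ 2 by norm_num]; exact (Real.sqrt_sq (by norm_num)).symm]
        exact Real.sqrt_le_sqrt (by linarith)
      calc 2 * Real.sqrt x ≤ Real.sqrt x * Real.sqrt x := by gcongr
        _ = x := Real.mul_self_sqrt hx0.le
    have h1 : θ * Λ / 2 = 3 * (x * L) := by
      rw [hθ, hΛ]
      field_simp
      ring
    have h2 : x ^ K = Real.exp (K * Real.log x) := by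
      rw [← Real.rpow_natCast, Real.rpow_def_of_pos hx0, mul_comm]
    have h3 : (2 : ℝ) ^ N ≤ Real.exp x := by
      calc (2 : ℝ) ^ N ≤ (Real.exp 1) ^ N := by
            gcongr
            have := Real.exp_one_gt_d9
            linarith
        _ = Real.exp x := by rw [← Real.exp_nat_mul, mul_one]
    rw [h1, h2]
    calc Real.exp (K * Real.log x) * 2 ^ N * Real.exp (-(3 * (x * L)))
        ≤ Real.exp (x * Real.log x) * Real.exp x * Real.exp (-(3 * (x * L))) := by gcongr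
      _ = Real.exp (x * Real.log x + x + -(3 * (x * L))) := by rw [Real.exp_add, Real.exp_add]
      _ ≤ Real.exp (-x) := by
          apply Real.exp_le_exp.2
          rw [hL]
          have : 0 ≤ x * Real.log x := by positivity
          nlinarith

/-- The lower bound, uniform over the strategies and over `q ≤ (ln N) / 4`. -/
theorem lower_bound : ∀ᶠ N : ℕ in atTop, ∀ σ : List (Sym2 (Fin N)) → Sym2 (Fin N), Legal N σ →
    ∀ q : ℕ, (q : ℝ) ≤ Real.log N / 4 →
    1 - ENNReal.ofReal (Real.exp (-N)) ≤ cliqueProb N q σ := by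
  filter_upwards [numeric] with N hN σ hσ q hq
  obtain ⟨R, K, θ, Λ, H, h1, h2, h3, h4, h5, h6, h7, h8, h9, h10, h11⟩ := hN
  have hqk : q ≤ ⌊Real.log N / 4⌋₊ := Nat.le_floor hq
  have := cliqueProb_ge R K ⌊Real.log N / 4⌋₊ h2 θ Λ h3 σ hσ
    (det_clique R K _ h1 h2 θ Λ (89 / 50) (1869 / 1000) H h3 h4 h5 h6 h7 (by norm_num) h8 h9 h10)
    h1 q hqk
  exact le_trans (tsub_le_tsub_left (ENNReal.ofReal_le_ofReal h11) _) this

end Pool.Agent.Helper610.RM
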